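import Pool.Agent.CVR.Defs

set_option autoImplicit false

/-!
CVR-Bd. The curvature function `Wg g₁ g₂` on the closed disc: continuity, boundary values, the
formula in terms of `h = (f')^(-1/2)` in the open disc, bounds for `h` and `h'`, and the identity
`(1 - ‖z‖^2) * (‖1 + z s‖^2 - ‖s‖^2) = 1 - ‖(1 - ‖z‖^2) * s - conj z‖^2`, `s = g₂ / (2 g₁)`.
-/

namespace Pool.Agent.CVR

open Set Metric Filter Topology

private theorem key (z s : ℂ) :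
    ‖1 + z * s‖ ^ 2 = 1 + 2 * (z * s).re + ‖z‖ ^ 2 * ‖s‖ ^ 2 := by
  rw [← mul_pow, ← norm_mul, Complex.sq_norm, Complex.sq_norm, Complex.normSq_apply,
    Complex.normSq_apply]
  simp only [Complex.add_re, Complex.add_im, Complex.one_re, Complex.one_im]
  ring

private theorem key2 (z s : ℂ) (r : ℝ) :
    ‖(r : ℂ) * s - starRingEnd ℂ z‖ ^ 2 = r ^ 2 * ‖s‖ ^ 2 - 2 * r * (z * s).re + ‖z‖ ^ 2 := by
  rw [Complex.sq_norm, Complex.sq_norm, Complex.sq_norm, Complex.normSq_apply,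
    Complex.normSq_apply, Complex.normSq_apply]
  simp only [Complex.sub_re, Complex.sub_im, Complex.mul_re, Complex.mul_im, Complex.ofReal_re,
    Complex.ofReal_im, Complex.conj_re, Complex.conj_im]
  ring

private theorem s_cont {f g₀ g₁ g₂ : ℂ → ℂ} (H : Reg f g₀ g₁ g₂) :
    ContinuousOn (fun z => g₂ z / (2 * g₁ z)) (closedBall 0 1) :=
  H.c2.div (continuousOn_const.mul H.c1) (fun z hz => mul_ne_zero two_ne_zero (H.ne z hz))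

theorem Wg_cont {f g₀ g₁ g₂ : ℂ → ℂ} (H : Reg f g₀ g₁ g₂) :
    ContinuousOn (Wg g₁ g₂) (closedBall 0 1) := by
  have hs := s_cont H
  have h1 : ContinuousOn (fun z => 1 + z * (g₂ z / (2 * g₁ z))) (closedBall 0 1) :=
    continuousOn_const.add (continuousOn_id.mul hs)
  exact ((h1.norm.pow 2).sub (hs.norm.pow 2)).div H.c1.norm
    (fun z hz => norm_ne_zero_iff.mpr (H.ne z hz))

theorem Wg_sphere {g₁ g₂ : ℂ → ℂ} {z : ℂ} (hz : ‖z‖ = 1) : Wg g₁ g₂ z = curv g₁ g₂ z := by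
  unfold Wg curv
  rw [key, hz]
  congr 1
  have e : z * g₂ z / g₁ z = 2 * (z * (g₂ z / (2 * g₁ z))) := by
    by_cases h0 : g₁ z = 0
    · simp [h0]
    · field_simp
  rw [e, Complex.add_re, Complex.one_re]
  have : (2 * (z * (g₂ z / (2 * g₁ z)))).re = 2 * (z * (g₂ z / (2 * g₁ z))).re := by
    simp
  rw [this]
  ring

private theorem hnorm {g h : ℂ} (hq : g * h ^ 2 = 1) : ‖h‖ ^ 2 = 1 / ‖g‖ := by
  have h1 : ‖g‖ * ‖h‖ ^ 2 = 1 := by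
    rw [← norm_pow, ← norm_mul, hq, norm_one]
  have h2 : ‖g‖ ≠ 0 := by
    intro h0
    rw [h0, zero_mul] at h1
    exact zero_ne_one h1
  field_simp
  linarith

theorem Wg_ball {f g₀ g₁ g₂ h : ℂ → ℂ} (H : Reg f g₀ g₁ g₂)
    (hq : ∀ z ∈ ball (0 : ℂ) 1, deriv f z * h z ^ 2 = 1)
    (hh : ∀ z ∈ ball (0 : ℂ) 1, deriv h z = -(deriv (deriv f) z / (2 * deriv f z)) * h z) :
    ∀ z ∈ ball (0 : ℂ) 1, Wg g₁ g₂ z = Wf h z := by
  intro z hz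
  unfold Wg Wf
  rw [hh z hz, H.e1 hz, H.e2 hz]
  set s := deriv (deriv f) z / (2 * deriv f z) with hs
  have e1 : h z - z * (-s * h z) = h z * (1 + z * s) := by ring
  have e2 : ‖-s * h z‖ = ‖s‖ * ‖h z‖ := by rw [norm_mul, norm_neg]
  rw [e1, e2, norm_mul, mul_pow, mul_pow, hnorm (hq z hz)]
  ring

theorem bounds {f g₀ g₁ g₂ h : ℂ → ℂ} (H : Reg f g₀ g₁ g₂)
    (hq : ∀ z ∈ ball (0 : ℂ) 1, deriv f z * h z ^ 2 = 1)
    (hh : ∀ z ∈ ball (0 : ℂ) 1, deriv h z = -(deriv (deriv f) z / (2 * deriv f z)) * h z) :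
    ∃ δ M : ℝ, 0 < δ ∧ (∀ z ∈ ball (0 : ℂ) 1, δ ≤ ‖h z‖) ∧
      ∀ z ∈ ball (0 : ℂ) 1, ‖h z‖ ≤ M ∧ ‖deriv h z‖ ≤ M := by
  have hK : IsCompact (closedBall (0 : ℂ) 1) := isCompact_closedBall 0 1
  obtain ⟨C₁, hC₁⟩ := hK.exists_bound_of_continuousOn H.c1
  obtain ⟨C₃, hC₃⟩ := hK.exists_bound_of_continuousOn (H.c1.inv₀ H.ne)
  obtain ⟨C₄, hC₄⟩ := hK.exists_bound_of_continuousOn (s_cont H)
  have hsub : ball (0 : ℂ) 1 ⊆ closedBall 0 1 := ball_subset_closedBall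
  have hA : 0 ≤ |C₃| + 1 := by positivity
  have hB : 1 ≤ |C₄| + 1 := by linarith [abs_nonneg C₄]
  have h1 : ∀ z ∈ ball (0 : ℂ) 1, ‖h z‖ ^ 2 = 1 / ‖g₁ z‖ := by
    intro z hz
    rw [H.e1 hz]
    exact hnorm (hq z hz)
  have h2 : ∀ z ∈ ball (0 : ℂ) 1, ‖h z‖ ≤ |C₃| + 1 := by
    intro z hz
    have h3 := hC₃ z (hsub hz)
    rw [Pi.inv_apply, norm_inv, ← one_div, ← h1 z hz] at h3
    nlinarith [norm_nonneg (h z), le_abs_self C₃, sq_nonneg (‖h z‖ - 1)]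
  refine ⟨Real.sqrt (1 / (|C₁| + 1)), (|C₃| + 1) * (|C₄| + 1), ?_, ?_, ?_⟩
  · apply Real.sqrt_pos.mpr
    positivity
  · intro z hz
    rw [Real.sqrt_le_iff]
    refine ⟨norm_nonneg _, ?_⟩
    rw [h1 z hz]
    apply one_div_le_one_div_of_le
    · exact norm_pos_iff.mpr (H.ne z (hsub hz))
    · linarith [hC₁ z (hsub hz), le_abs_self C₁]
  · intro z hz
    refine ⟨(h2 z hz).trans ?_, ?_⟩
    · nlinarith
    · rw [hh z hz, norm_mul, norm_neg]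
      have h4 := hC₄ z (hsub hz)
      rw [H.e1 hz, H.e2 hz] at h4
      rw [mul_comm]
      apply mul_le_mul (h2 z hz) _ (norm_nonneg _) hA
      linarith [le_abs_self C₄]

theorem Wg_eq {g₁ g₂ : ℂ → ℂ} {z : ℂ} (hz : ‖z‖ < 1) (hg : g₁ z ≠ 0) :
    Wg g₁ g₂ z = (1 - ‖((1 - ‖z‖ ^ 2 : ℝ) : ℂ) * g₂ z / (2 * g₁ z) - starRingEnd ℂ z‖ ^ 2) /
      ((1 - ‖z‖ ^ 2) * ‖g₁ z‖) := by
  have h0 : 0 < 1 - ‖z‖ ^ 2 := by nlinarith [norm_nonneg z]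
  have h1 : 0 < ‖g₁ z‖ := norm_pos_iff.mpr hg
  unfold Wg
  rw [mul_div_assoc, key, key2]
  field_simp
  ring

end Pool.Agent.CVR
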