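import Pool.Agent.CVR.Defs

set_option autoImplicit false

/-!
CVR-KoeA. The disc automorphism `phi a` and the transformation `kt h a`: the derivative of
`kt h a` and the identity `Wf (kt h a) z = (1 - ‖a‖ ^ 2) * Wf h (phi a z)`.
-/

namespace Pool.Agent.CVR

open Set Metric Filter Topology

theorem phi_den {a z : ℂ} (ha : ‖a‖ < 1) (hz : ‖z‖ < 1) : 1 + starRingEnd ℂ a * z ≠ 0 := by
  intro h
  have h1 : starRingEnd ℂ a * z = -1 := by linear_combination h
  have h2 : ‖starRingEnd ℂ a * z‖ = 1 := by rw [h1]; simp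
  rw [norm_mul, RCLike.norm_conj] at h2
  have h3 : ‖a‖ * ‖z‖ ≤ ‖a‖ * 1 := mul_le_mul_of_nonneg_left hz.le (norm_nonneg _)
  linarith

private theorem norm_id (a A B : ℂ) :
    ‖A + a * B‖ ^ 2 - ‖starRingEnd ℂ a * A + B‖ ^ 2 = (1 - ‖a‖ ^ 2) * (‖A‖ ^ 2 - ‖B‖ ^ 2) := by
  simp only [← Complex.normSq_eq_norm_sq, Complex.normSq_apply, Complex.add_re, Complex.add_im,
    Complex.mul_re, Complex.mul_im, Complex.conj_re, Complex.conj_im]
  ring

theorem phi_mem {a z : ℂ} (ha : ‖a‖ < 1) (hz : ‖z‖ < 1) : ‖phi a z‖ < 1 := by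
  have hD := phi_den ha hz
  have hD' : 0 < ‖1 + starRingEnd ℂ a * z‖ := norm_pos_iff.mpr hD
  have h := norm_id a z 1
  have h1 : ‖z + a‖ ^ 2 - ‖1 + starRingEnd ℂ a * z‖ ^ 2 = (1 - ‖a‖ ^ 2) * (‖z‖ ^ 2 - 1) := by
    have e1 : z + a * 1 = z + a := by ring
    have e2 : starRingEnd ℂ a * z + 1 = 1 + starRingEnd ℂ a * z := by ring
    rw [e1, e2] at h
    simpa using h
  have ha2 : ‖a‖ ^ 2 < 1 := by nlinarith [norm_nonneg a]
  have hz2 : ‖z‖ ^ 2 < 1 := by nlinarith [norm_nonneg z]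
  have h2 : ‖z + a‖ ^ 2 < ‖1 + starRingEnd ℂ a * z‖ ^ 2 := by nlinarith
  have h3 : ‖z + a‖ < ‖1 + starRingEnd ℂ a * z‖ := lt_of_pow_lt_pow_left₀ 2 hD'.le h2
  rw [phi, norm_div, div_lt_one hD']
  exact h3

theorem phi_zero (a : ℂ) : phi a 0 = a := by
  simp [phi]

theorem kt_zero (h : ℂ → ℂ) (a : ℂ) : kt h a 0 = h a := by
  simp [kt, phi_zero]

private theorem conj_mul_self (a : ℂ) : starRingEnd ℂ a * a = ((‖a‖ ^ 2 : ℝ) : ℂ) := by
  rw [Complex.conj_mul']
  push_cast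
  rfl

theorem kt_hasDerivAt {h : ℂ → ℂ} (hd : DifferentiableOn ℂ h (ball 0 1)) {a z : ℂ} (ha : ‖a‖ < 1)
    (hz : ‖z‖ < 1) :
    HasDerivAt (kt h a) (starRingEnd ℂ a * (h (phi a z) - phi a z * deriv h (phi a z)) +
      deriv h (phi a z)) z := by
  have hD := phi_den ha hz
  have hm := phi_mem ha hz
  have hh : HasDerivAt h (deriv h (phi a z)) (phi a z) :=
    ((hd _ (by simpa using hm)).differentiableAt (isOpen_ball.mem_nhds (by simpa using hm))).hasDerivAt
  have hden : HasDerivAt (fun w : ℂ => 1 + starRingEnd ℂ a * w) (starRingEnd ℂ a) z := by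
    have := ((hasDerivAt_id z).const_mul (starRingEnd ℂ a)).const_add 1
    simpa using this
  have hnum : HasDerivAt (fun w : ℂ => w + a) 1 z := (hasDerivAt_id z).add_const a
  have hphi : HasDerivAt (phi a) ((1 * (1 + starRingEnd ℂ a * z) - (z + a) * starRingEnd ℂ a) /
      (1 + starRingEnd ℂ a * z) ^ 2) z := hnum.div hden hD
  have hcomp : HasDerivAt (fun w => h (phi a w)) (deriv h (phi a z) *
      ((1 * (1 + starRingEnd ℂ a * z) - (z + a) * starRingEnd ℂ a) /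
      (1 + starRingEnd ℂ a * z) ^ 2)) z := HasDerivAt.comp z hh hphi
  have hprod := hcomp.mul hden
  have hkt : (kt h a) = (fun w => h (phi a w)) * (fun w : ℂ => 1 + starRingEnd ℂ a * w) := by
    funext w
    rfl
  rw [hkt]
  have hw : phi a z * (1 + starRingEnd ℂ a * z) = z + a := by
    rw [phi]; exact div_mul_cancel₀ _ hD
  have e1 : (1 * (1 + starRingEnd ℂ a * z) - (z + a) * starRingEnd ℂ a) /
      (1 + starRingEnd ℂ a * z) ^ 2 * (1 + starRingEnd ℂ a * z) = 1 - starRingEnd ℂ a * phi a z := by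
    rw [← hw]
    field_simp
  have e2 : starRingEnd ℂ a * (h (phi a z) - phi a z * deriv h (phi a z)) + deriv h (phi a z) =
      deriv h (phi a z) * ((1 * (1 + starRingEnd ℂ a * z) - (z + a) * starRingEnd ℂ a) /
      (1 + starRingEnd ℂ a * z) ^ 2) * (1 + starRingEnd ℂ a * z) +
      h (phi a z) * starRingEnd ℂ a := by
    rw [mul_assoc, e1]
    ring
  rw [e2]
  exact hprod

theorem kt_diff {h : ℂ → ℂ} (hd : DifferentiableOn ℂ h (ball 0 1)) {a : ℂ} (ha : ‖a‖ < 1) :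
    DifferentiableOn ℂ (kt h a) (ball 0 1) := by
  intro z hz
  have hz' : ‖z‖ < 1 := by simpa using hz
  exact (kt_hasDerivAt hd ha hz').differentiableAt.differentiableWithinAt

theorem Wf_kt {h : ℂ → ℂ} (hd : DifferentiableOn ℂ h (ball 0 1)) {a z : ℂ} (ha : ‖a‖ < 1)
    (hz : ‖z‖ < 1) : Wf (kt h a) z = (1 - ‖a‖ ^ 2) * Wf h (phi a z) := by
  have hD := phi_den ha hz
  have hw : phi a z * (1 + starRingEnd ℂ a * z) = z + a := by
    rw [phi]; exact div_mul_cancel₀ _ hD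
  rw [Wf, Wf, (kt_hasDerivAt hd ha hz).deriv]
  have e1 : kt h a z - z * (starRingEnd ℂ a * (h (phi a z) - phi a z * deriv h (phi a z)) +
      deriv h (phi a z)) =
      (h (phi a z) - phi a z * deriv h (phi a z)) + a * deriv h (phi a z) := by
    rw [kt]
    linear_combination (deriv h (phi a z)) * hw
  rw [e1]
  exact norm_id a _ _

end Pool.Agent.CVR
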