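import Pool.Agent.CVR.Defs

set_option autoImplicit false

/-!
CVR-KoeB. If `kt h a` is affine near `0`, then `h` is affine in the disc: the inverse of `phi a` shows that `h` is affine near `a`,
and the identity theorem gives the rest.
-/

namespace Pool.Agent.CVR

open Set Metric Filter Topology

theorem affine_of_kt {h : ℂ → ℂ} (hd : DifferentiableOn ℂ h (ball 0 1)) {a : ℂ} (ha : ‖a‖ < 1)
    (hk : ∀ᶠ z in 𝓝 (0 : ℂ), kt h a z = kt h a 0 + deriv (kt h a) 0 * z) :
    ∀ z ∈ ball (0 : ℂ) 1, h z = h 0 + deriv h 0 * z := by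
  set A : ℂ := kt h a 0 with hA
  set B : ℂ := deriv (kt h a) 0 with hB
  set c : ℂ := starRingEnd ℂ a with hc
  have hca : c * a = ((‖a‖ ^ 2 : ℝ) : ℂ) := by
    rw [hc, mul_comm, Complex.mul_conj, Complex.normSq_eq_norm_sq]
  have hne : 1 - c * a ≠ 0 := by
    rw [hca, ← Complex.ofReal_one, ← Complex.ofReal_sub]
    have h1 : (1 : ℝ) - ‖a‖ ^ 2 ≠ 0 := by
      have h2 : ‖a‖ ^ 2 < 1 := by
        have h3 := norm_nonneg a
        nlinarith
      linarith
    exact_mod_cast h1
  have hcD : ContinuousAt (fun w : ℂ => 1 - c * w) a := by fun_prop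
  have hD : ∀ᶠ w in 𝓝 a, 1 - c * w ≠ 0 := hcD.eventually_ne hne
  have hcz : ContinuousAt (fun w : ℂ => (w - a) / (1 - c * w)) a :=
    ContinuousAt.div (by fun_prop) hcD hne
  have hz0 : Tendsto (fun w : ℂ => (w - a) / (1 - c * w)) (𝓝 a) (𝓝 0) := by
    have h1 := hcz.tendsto
    rw [sub_self, zero_div] at h1
    exact h1
  have hev : ∀ᶠ w in 𝓝 a, h w = (A - B * a) / (1 - c * a) + (B - A * c) / (1 - c * a) * w := by
    filter_upwards [hz0.eventually hk, hD] with w h1 h2
    obtain ⟨q, hq0⟩ : ∃ q : ℂ, q = (w - a) / (1 - c * w) := ⟨_, rfl⟩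
    have hq : q * (1 - c * w) = w - a := by rw [hq0, div_mul_cancel₀ _ h2]
    have e1 : (1 + c * q) * (1 - c * w) = 1 - c * a := by linear_combination c * hq
    have hne1 : 1 + c * q ≠ 0 := by
      intro h3
      rw [h3, zero_mul] at e1
      exact hne e1.symm
    have e3 : phi a q = w := by
      unfold phi
      rw [← hc, div_eq_iff hne1]
      linear_combination hq
    rw [← hq0] at h1
    unfold kt at h1
    rw [e3, ← hc] at h1
    have h3 : h w * (1 - c * a) = A * (1 - c * w) + B * (w - a) := by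
      linear_combination (1 - c * w) * h1 - h w * e1 + B * hq
    rw [div_mul_eq_mul_div, ← add_div, eq_div_iff hne]
    linear_combination h3
  have hball : IsOpen (ball (0 : ℂ) 1) := isOpen_ball
  have ha1 : AnalyticOnNhd ℂ h (ball 0 1) := hd.analyticOnNhd hball
  have ha2 : AnalyticOnNhd ℂ
      (fun w : ℂ => (A - B * a) / (1 - c * a) + (B - A * c) / (1 - c * a) * w) (ball 0 1) := by
    apply DifferentiableOn.analyticOnNhd _ hball
    fun_prop
  have hEq := ha1.eqOn_of_preconnected_of_eventuallyEq ha2 (convex_ball 0 1).isPreconnected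
    (by rw [mem_ball, dist_zero_right]; exact ha) hev
  have h0 : (0 : ℂ) ∈ ball (0 : ℂ) 1 := by simp
  have e0 : h 0 = (A - B * a) / (1 - c * a) := by
    have h1 := hEq h0
    simp only [mul_zero, add_zero] at h1
    exact h1
  have hev0 : h =ᶠ[𝓝 0] fun w : ℂ => (A - B * a) / (1 - c * a) + (B - A * c) / (1 - c * a) * w :=
    hEq.eventuallyEq_of_mem (hball.mem_nhds h0)
  have e1 : deriv h 0 = (B - A * c) / (1 - c * a) := by
    rw [hev0.deriv_eq]
    simp
  intro z hz
  rw [e0, e1]
  exact hEq hz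

end Pool.Agent.CVR
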