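import Mathlib

set_option autoImplicit false

/-!
# CVR-DirB: directional expansion, case `b ≠ 0`

With `z = s * w`, `s` real and `‖w‖ = 1`, the difference `‖a - z^m * l z‖^2 - ‖b + z^(m-1) * k z‖^2` equals
`‖a‖^2 - ‖b‖^2 + s^(m-1) * ψ s` with `ψ` continuous at `0` and `ψ 0 = -2 * Re (conj b * w^(m-1) * k 0)`.  The direction
`w` is chosen by `root_dir`, and `s` is small.
-/

namespace Pool.Agent.CVR

open Set Metric Filter Topology

theorem root_dir (n : ℕ) (hn : n ≠ 0) (c : ℂ) : ∃ w : ℂ, ‖w‖ = 1 ∧ c * w ^ n = (‖c‖ : ℂ) := by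
  refine ⟨Complex.exp (((-(Complex.arg c / n) : ℝ) : ℂ) * Complex.I),
    Complex.norm_exp_ofReal_mul_I _, ?_⟩
  have hn' : (n : ℂ) ≠ 0 := Nat.cast_ne_zero.mpr hn
  have h1 : Complex.exp (((-(Complex.arg c / n) : ℝ) : ℂ) * Complex.I) ^ n =
      Complex.exp (-((Complex.arg c : ℂ) * Complex.I)) := by
    rw [← Complex.exp_nat_mul]
    apply congrArg
    push_cast
    field_simp
  rw [h1]
  calc c * Complex.exp (-((Complex.arg c : ℂ) * Complex.I))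
      = ((‖c‖ : ℂ) * Complex.exp ((Complex.arg c : ℂ) * Complex.I)) *
          Complex.exp (-((Complex.arg c : ℂ) * Complex.I)) := by
        rw [Complex.norm_mul_exp_arg_mul_I]
    _ = (‖c‖ : ℂ) := by
        rw [mul_assoc, ← Complex.exp_add, add_neg_cancel, Complex.exp_zero, mul_one]

private theorem dirb_sq (x y : ℂ) :
    ‖x + y‖ ^ 2 = ‖x‖ ^ 2 + 2 * (starRingEnd ℂ x * y).re + ‖y‖ ^ 2 := by
  rw [← Complex.normSq_eq_norm_sq, ← Complex.normSq_eq_norm_sq, ← Complex.normSq_eq_norm_sq,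
    Complex.normSq_apply, Complex.normSq_apply, Complex.normSq_apply]
  simp only [Complex.add_re, Complex.add_im, Complex.mul_re, Complex.conj_re, Complex.conj_im]
  ring

/-- the coefficient function along the direction `w` -/
private noncomputable def dirbPsi (a b w : ℂ) (N : ℕ) (k l : ℂ → ℂ) (s : ℝ) : ℝ :=
  -2 * (starRingEnd ℂ b * w ^ N * k ((s : ℂ) * w)).re -
    2 * s * (starRingEnd ℂ a * w ^ (N + 1) * l ((s : ℂ) * w)).re +
    s ^ (N + 2) * ‖l ((s : ℂ) * w)‖ ^ 2 - s ^ N * ‖k ((s : ℂ) * w)‖ ^ 2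

private theorem dirb_id (a b w : ℂ) (N : ℕ) (k l : ℂ → ℂ) (s : ℝ) (hw : ‖w‖ = 1) :
    ‖a - ((s : ℂ) * w) ^ (N + 1) * l ((s : ℂ) * w)‖ ^ 2 -
        ‖b + ((s : ℂ) * w) ^ N * k ((s : ℂ) * w)‖ ^ 2 =
      ‖a‖ ^ 2 - ‖b‖ ^ 2 + s ^ N * dirbPsi a b w N k l s := by
  have e1 : ‖((s : ℂ) * w) ^ (N + 1) * l ((s : ℂ) * w)‖ ^ 2 =
      s ^ N * (s ^ (N + 2) * ‖l ((s : ℂ) * w)‖ ^ 2) := by
    rw [norm_mul, norm_pow, norm_mul, hw, mul_one, Complex.norm_real, Real.norm_eq_abs, mul_pow,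
      ← pow_mul, mul_comm (N + 1) 2, pow_mul, sq_abs]
    ring
  have e2 : ‖((s : ℂ) * w) ^ N * k ((s : ℂ) * w)‖ ^ 2 =
      s ^ N * (s ^ N * ‖k ((s : ℂ) * w)‖ ^ 2) := by
    rw [norm_mul, norm_pow, norm_mul, hw, mul_one, Complex.norm_real, Real.norm_eq_abs, mul_pow,
      ← pow_mul, mul_comm N 2, pow_mul, sq_abs]
    ring
  have e3 : (starRingEnd ℂ a * -(((s : ℂ) * w) ^ (N + 1) * l ((s : ℂ) * w))).re =
      -(s ^ (N + 1) * (starRingEnd ℂ a * w ^ (N + 1) * l ((s : ℂ) * w)).re) := by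
    have h : starRingEnd ℂ a * -(((s : ℂ) * w) ^ (N + 1) * l ((s : ℂ) * w)) =
        ((-(s ^ (N + 1)) : ℝ) : ℂ) * (starRingEnd ℂ a * w ^ (N + 1) * l ((s : ℂ) * w)) := by
      push_cast
      rw [mul_pow]
      ring
    rw [h, Complex.re_ofReal_mul]
    ring
  have e4 : (starRingEnd ℂ b * (((s : ℂ) * w) ^ N * k ((s : ℂ) * w))).re =
      s ^ N * (starRingEnd ℂ b * w ^ N * k ((s : ℂ) * w)).re := by
    have h : starRingEnd ℂ b * (((s : ℂ) * w) ^ N * k ((s : ℂ) * w)) =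
        ((s ^ N : ℝ) : ℂ) * (starRingEnd ℂ b * w ^ N * k ((s : ℂ) * w)) := by
      push_cast
      rw [mul_pow]
      ring
    rw [h, Complex.re_ofReal_mul]
  rw [sub_eq_add_neg a, dirb_sq, dirb_sq, norm_neg, e1, e2, e3, e4]
  unfold dirbPsi
  ring

private theorem dirb_cont (a b w : ℂ) (N : ℕ) {k l : ℂ → ℂ} (hk : ContinuousAt k 0)
    (hl : ContinuousAt l 0) : ContinuousAt (dirbPsi a b w N k l) 0 := by
  have h0 : ContinuousAt (fun s : ℝ => (s : ℂ) * w) 0 := by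
    exact (Complex.continuous_ofReal.mul continuous_const).continuousAt
  have hz : ((0 : ℝ) : ℂ) * w = 0 := by
    rw [Complex.ofReal_zero, zero_mul]
  have hk' : ContinuousAt (fun s : ℝ => k ((s : ℂ) * w)) 0 := by
    apply ContinuousAt.comp (f := fun s : ℝ => (s : ℂ) * w) (g := k) _ h0
    rw [hz]
    exact hk
  have hl' : ContinuousAt (fun s : ℝ => l ((s : ℂ) * w)) 0 := by
    apply ContinuousAt.comp (f := fun s : ℝ => (s : ℂ) * w) (g := l) _ h0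
    rw [hz]
    exact hl
  have r1 : ContinuousAt (fun s : ℝ => (starRingEnd ℂ b * w ^ N * k ((s : ℂ) * w)).re) 0 :=
    Complex.continuous_re.continuousAt.comp (continuousAt_const.mul hk')
  have r2 : ContinuousAt (fun s : ℝ => (starRingEnd ℂ a * w ^ (N + 1) * l ((s : ℂ) * w)).re) 0 :=
    Complex.continuous_re.continuousAt.comp (continuousAt_const.mul hl')
  have c1 : ∀ n : ℕ, ContinuousAt (fun s : ℝ => s ^ n) 0 := fun n =>
    (continuous_pow n).continuousAt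
  exact (((continuousAt_const.mul r1).sub ((continuousAt_const.mul continuousAt_id).mul r2)).add
    ((c1 (N + 2)).mul (hl'.norm.pow 2))).sub ((c1 N).mul (hk'.norm.pow 2))

private theorem dirb_zero (a b w : ℂ) (N : ℕ) (hN : N ≠ 0) (k l : ℂ → ℂ) :
    dirbPsi a b w N k l 0 = -2 * (starRingEnd ℂ b * k 0 * w ^ N).re := by
  unfold dirbPsi
  rw [Complex.ofReal_zero, zero_mul, zero_pow hN, zero_pow (Nat.succ_ne_zero (N + 1))]
  have h : starRingEnd ℂ b * w ^ N * k 0 = starRingEnd ℂ b * k 0 * w ^ N := by ring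
  rw [h]
  ring

private theorem dirb_ex {P : ℝ → Prop} (h : ∀ᶠ s in 𝓝 (0 : ℝ), P s) {ε : ℝ} (hε : 0 < ε) :
    ∃ s : ℝ, 0 < s ∧ s < ε ∧ P s := by
  have h1 : ∀ᶠ s in 𝓝[>] (0 : ℝ), P s := h.filter_mono nhdsWithin_le_nhds
  have h2 : ∀ᶠ s in 𝓝[>] (0 : ℝ), s < ε :=
    (eventually_lt_nhds hε).filter_mono nhdsWithin_le_nhds
  have h3 : ∀ᶠ s in 𝓝[>] (0 : ℝ), 0 < s := self_mem_nhdsWithin
  obtain ⟨s, h4, h5, h6⟩ := (h3.and (h2.and h1)).exists
  exact ⟨s, h4, h5, h6⟩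

theorem dir_b {a b : ℂ} {m : ℕ} {k l : ℂ → ℂ} (hm : 2 ≤ m) (hk : ContinuousAt k 0)
    (hl : ContinuousAt l 0) (hk0 : k 0 ≠ 0) (hb : b ≠ 0) {ε : ℝ} (hε : 0 < ε) :
    (∃ z : ℂ, ‖z‖ < ε ∧
      ‖a - z ^ m * l z‖ ^ 2 - ‖b + z ^ (m - 1) * k z‖ ^ 2 < ‖a‖ ^ 2 - ‖b‖ ^ 2) ∧
    ∃ z : ℂ, ‖z‖ < ε ∧
      ‖a‖ ^ 2 - ‖b‖ ^ 2 < ‖a - z ^ m * l z‖ ^ 2 - ‖b + z ^ (m - 1) * k z‖ ^ 2 := by
  obtain ⟨N, rfl⟩ : ∃ N, m = N + 1 := ⟨m - 1, by omega⟩
  have hN : N ≠ 0 := by omega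
  rw [Nat.add_sub_cancel]
  have hb' : starRingEnd ℂ b ≠ 0 := (map_ne_zero _).2 hb
  have hc : 0 < ‖starRingEnd ℂ b * k 0‖ := norm_pos_iff.2 (mul_ne_zero hb' hk0)
  have hnz : ∀ (w : ℂ) (s : ℝ), ‖w‖ = 1 → 0 < s → ‖(s : ℂ) * w‖ = s := by
    intro w s hw hs
    rw [norm_mul, hw, mul_one, Complex.norm_real, Real.norm_eq_abs, abs_of_pos hs]
  constructor
  · obtain ⟨w, hw, hw2⟩ := root_dir N hN (starRingEnd ℂ b * k 0)
    have h0 : dirbPsi a b w N k l 0 < 0 := by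
      rw [dirb_zero a b w N hN, hw2, Complex.ofReal_re]
      linarith
    obtain ⟨s, hs, hsε, hs2⟩ := dirb_ex ((dirb_cont a b w N hk hl).eventually_lt_const h0) hε
    refine ⟨(s : ℂ) * w, by rw [hnz w s hw hs]; exact hsε, ?_⟩
    rw [dirb_id a b w N k l s hw]
    have h1 : s ^ N * dirbPsi a b w N k l s < 0 := mul_neg_of_pos_of_neg (pow_pos hs N) hs2
    linarith
  · obtain ⟨w, hw, hw2⟩ := root_dir N hN (-(starRingEnd ℂ b * k 0))
    have h0 : 0 < dirbPsi a b w N k l 0 := by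
      rw [dirb_zero a b w N hN]
      have h1 : (starRingEnd ℂ b * k 0 * w ^ N).re = -‖starRingEnd ℂ b * k 0‖ := by
        have h2 : starRingEnd ℂ b * k 0 * w ^ N =
            ((-‖starRingEnd ℂ b * k 0‖ : ℝ) : ℂ) := by
          rw [norm_neg] at hw2
          push_cast
          rw [← hw2]
          ring
        rw [h2, Complex.ofReal_re]
      rw [h1]
      linarith
    obtain ⟨s, hs, hsε, hs2⟩ := dirb_ex ((dirb_cont a b w N hk hl).eventually_const_lt h0) hε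
    refine ⟨(s : ℂ) * w, by rw [hnz w s hw hs]; exact hsε, ?_⟩
    rw [dirb_id a b w N k l s hw]
    have h1 : 0 < s ^ N * dirbPsi a b w N k l s := mul_pos (pow_pos hs N) hs2
    linarith

end Pool.Agent.CVR
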