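import Mathlib

set_option autoImplicit false

/-!
CVR-DirZ (Mathlib only). Directional expansion, case `b = 0`.

Along a ray `z = s * w`, `‖w‖ = 1`, `s > 0`, the difference of the two squares is `‖a‖ ^ 2 + s ^ m * ψ s` with
`ψ` continuous at `0`; the direction `w` is chosen such that `ψ 0` has the required sign.
-/

namespace Pool.Agent.CVR

open Set Metric Filter Topology

open ComplexConjugate in
private lemma core {a : ℂ} {n : ℕ} {k l : ℂ → ℂ} (hk : ContinuousAt k 0)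
    (hl : ContinuousAt l 0) (w : ℂ) (hw : ‖w‖ = 1) :
    ∃ ψ : ℝ → ℝ, ContinuousAt ψ 0 ∧
      ψ 0 = -2 * (conj a * w ^ (n + 2) * l 0).re - 0 ^ n * ‖k 0‖ ^ 2 ∧
      ∀ s : ℝ, 0 < s → ‖a - ((s : ℂ) * w) ^ (n + 2) * l ((s : ℂ) * w)‖ ^ 2 -
        ‖((s : ℂ) * w) ^ (n + 2 - 1) * k ((s : ℂ) * w)‖ ^ 2 = ‖a‖ ^ 2 + s ^ (n + 2) * ψ s := by
  have hc : ContinuousAt (fun s : ℝ => (s : ℂ) * w) 0 := by fun_prop
  have hl' : ContinuousAt (fun s : ℝ => l ((s : ℂ) * w)) 0 :=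
    ContinuousAt.comp (f := fun s : ℝ => (s : ℂ) * w) (g := l) (by simpa using hl) hc
  have hk' : ContinuousAt (fun s : ℝ => k ((s : ℂ) * w)) 0 :=
    ContinuousAt.comp (f := fun s : ℝ => (s : ℂ) * w) (g := k) (by simpa using hk) hc
  refine ⟨fun s => -2 * (conj a * w ^ (n + 2) * l ((s : ℂ) * w)).re +
    s ^ (n + 2) * ‖l ((s : ℂ) * w)‖ ^ 2 - s ^ n * ‖k ((s : ℂ) * w)‖ ^ 2, ?_, ?_, ?_⟩
  · have h1 : ContinuousAt (fun s : ℝ => (conj a * w ^ (n + 2) * l ((s : ℂ) * w)).re) 0 :=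
      Complex.continuous_re.continuousAt.comp (continuousAt_const.mul hl')
    exact ((continuousAt_const.mul h1).add ((continuousAt_id.pow _).mul (hl'.norm.pow 2))).sub
      ((continuousAt_id.pow _).mul (hk'.norm.pow 2))
  · simp
  · intro s hs
    have e1 : ‖a - ((s : ℂ) * w) ^ (n + 2) * l ((s : ℂ) * w)‖ ^ 2 = ‖a‖ ^ 2 -
        2 * (s ^ (n + 2) * (conj a * w ^ (n + 2) * l ((s : ℂ) * w)).re) +
        (s ^ (n + 2)) ^ 2 * ‖l ((s : ℂ) * w)‖ ^ 2 := by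
      have h0 := Complex.normSq_sub a (((s : ℂ) * w) ^ (n + 2) * l ((s : ℂ) * w))
      rw [Complex.normSq_eq_norm_sq, Complex.normSq_eq_norm_sq, Complex.normSq_eq_norm_sq] at h0
      have h1 : ‖((s : ℂ) * w) ^ (n + 2) * l ((s : ℂ) * w)‖ = s ^ (n + 2) * ‖l ((s : ℂ) * w)‖ := by
        rw [norm_mul, norm_pow, norm_mul, hw, mul_one, Complex.norm_real, Real.norm_eq_abs,
          abs_of_pos hs]
      have h2 : (a * conj (((s : ℂ) * w) ^ (n + 2) * l ((s : ℂ) * w))).re =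
          s ^ (n + 2) * (conj a * w ^ (n + 2) * l ((s : ℂ) * w)).re := by
        have h3 : a * conj (((s : ℂ) * w) ^ (n + 2) * l ((s : ℂ) * w)) =
            conj (((s ^ (n + 2) : ℝ) : ℂ) * (conj a * w ^ (n + 2) * l ((s : ℂ) * w))) := by
          simp only [map_mul, map_pow, Complex.conj_conj, Complex.conj_ofReal, Complex.ofReal_pow]
          ring
        rw [h3, Complex.conj_re, Complex.re_ofReal_mul]
      rw [h0, h1, h2]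
      ring
    have e2 : ‖((s : ℂ) * w) ^ (n + 2 - 1) * k ((s : ℂ) * w)‖ ^ 2 =
        s ^ (n + 2) * (s ^ n * ‖k ((s : ℂ) * w)‖ ^ 2) := by
      have h1 : ‖((s : ℂ) * w) ^ (n + 2 - 1) * k ((s : ℂ) * w)‖ = s ^ (n + 1) * ‖k ((s : ℂ) * w)‖ := by
        rw [norm_mul, norm_pow, norm_mul, hw, mul_one, Complex.norm_real, Real.norm_eq_abs,
          abs_of_pos hs]
        rfl
      rw [h1]
      ring
    rw [e1, e2]
    ring

open ComplexConjugate in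
private lemma dir {n : ℕ} (hn : n ≠ 0) (c : ℂ) : ∃ w : ℂ, ‖w‖ = 1 ∧ c * w ^ n = (‖c‖ : ℂ) := by
  refine ⟨Complex.exp (((-(Complex.arg c / n) : ℝ) : ℂ) * Complex.I), ?_, ?_⟩
  · exact Complex.norm_exp_ofReal_mul_I _
  · rw [← Complex.exp_nat_mul]
    have hn' : (n : ℂ) ≠ 0 := by exact_mod_cast hn
    have e : (n : ℂ) * (((-(Complex.arg c / n) : ℝ) : ℂ) * Complex.I) =
        -((Complex.arg c : ℂ) * Complex.I) := by
      push_cast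
      field_simp
    rw [e]
    calc c * Complex.exp (-((Complex.arg c : ℂ) * Complex.I))
        = ((‖c‖ : ℂ) * Complex.exp ((Complex.arg c : ℂ) * Complex.I)) *
            Complex.exp (-((Complex.arg c : ℂ) * Complex.I)) := by
          rw [Complex.norm_mul_exp_arg_mul_I]
      _ = (‖c‖ : ℂ) := by
          rw [mul_assoc, ← Complex.exp_add, add_neg_cancel, Complex.exp_zero, mul_one]

private lemma pick {ψ : ℝ → ℝ} (hψ : ContinuousAt ψ 0) {U : Set ℝ} (hU : U ∈ 𝓝 (ψ 0)) {ε : ℝ}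
    (hε : 0 < ε) : ∃ s : ℝ, 0 < s ∧ s < ε ∧ ψ s ∈ U := by
  have h1 : ∀ᶠ s in 𝓝[>] (0 : ℝ), ψ s ∈ U := nhdsWithin_le_nhds (hψ hU)
  have h2 : ∀ᶠ s in 𝓝[>] (0 : ℝ), s ∈ Ioo (0 : ℝ) ε := Ioo_mem_nhdsGT hε
  obtain ⟨s, hs1, hs2⟩ := (h1.and h2).exists
  exact ⟨s, hs2.1, hs2.2, hs1⟩

theorem dir_z_min {a : ℂ} {m : ℕ} {k l : ℂ → ℂ} (hm : 2 ≤ m) (hk : ContinuousAt k 0)
    (hl : ContinuousAt l 0) (hl0 : l 0 ≠ 0) (ha : a ≠ 0) {ε : ℝ} (hε : 0 < ε) :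
    ∃ z : ℂ, ‖z‖ < ε ∧ ‖a - z ^ m * l z‖ ^ 2 - ‖z ^ (m - 1) * k z‖ ^ 2 < ‖a‖ ^ 2 := by
  obtain ⟨n, rfl⟩ : ∃ n, m = n + 2 := ⟨m - 2, by omega⟩
  obtain ⟨w, hw, hc⟩ := dir (n := n + 2) (by omega) ((starRingEnd ℂ) a * l 0)
  obtain ⟨ψ, hψ, h0, hs⟩ := core (a := a) (n := n) hk hl w hw
  have hpos : 0 < ‖a‖ * ‖l 0‖ := mul_pos (norm_pos_iff.2 ha) (norm_pos_iff.2 hl0)
  have hre : ((starRingEnd ℂ) a * w ^ (n + 2) * l 0).re = ‖a‖ * ‖l 0‖ := by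
    have e : (starRingEnd ℂ) a * w ^ (n + 2) * l 0 = ((‖a‖ * ‖l 0‖ : ℝ) : ℂ) := by
      rw [norm_mul, Complex.norm_conj] at hc
      rw [← hc]
      ring
    rw [e, Complex.ofReal_re]
  have hneg : ψ 0 < 0 := by
    rw [h0, hre]
    have : 0 ≤ (0 : ℝ) ^ n * ‖k 0‖ ^ 2 := by positivity
    linarith
  obtain ⟨s, hs0, hs1, hs2⟩ := pick hψ (Iio_mem_nhds hneg) hε
  refine ⟨(s : ℂ) * w, ?_, ?_⟩
  · rw [norm_mul, hw, mul_one, Complex.norm_real, Real.norm_eq_abs, abs_of_pos hs0]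
    exact hs1
  · rw [hs s hs0]
    have : s ^ (n + 2) * ψ s < 0 := mul_neg_of_pos_of_neg (pow_pos hs0 _) hs2
    linarith

theorem dir_z_max {a : ℂ} {m : ℕ} {k l : ℂ → ℂ} (hm : 2 ≤ m) (hk : ContinuousAt k 0)
    (hl : ContinuousAt l 0) (hl0 : l 0 ≠ 0) (ha : a ≠ 0)
    (h2 : m = 2 → ‖k 0‖ ^ 2 < 2 * ‖a‖ * ‖l 0‖) {ε : ℝ} (hε : 0 < ε) :
    ∃ z : ℂ, ‖z‖ < ε ∧ ‖a‖ ^ 2 < ‖a - z ^ m * l z‖ ^ 2 - ‖z ^ (m - 1) * k z‖ ^ 2 := by
  obtain ⟨n, rfl⟩ : ∃ n, m = n + 2 := ⟨m - 2, by omega⟩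
  obtain ⟨w, hw, hc⟩ := dir (n := n + 2) (by omega) (-((starRingEnd ℂ) a * l 0))
  obtain ⟨ψ, hψ, h0, hs⟩ := core (a := a) (n := n) hk hl w hw
  have hpos : 0 < ‖a‖ * ‖l 0‖ := mul_pos (norm_pos_iff.2 ha) (norm_pos_iff.2 hl0)
  have hre : ((starRingEnd ℂ) a * w ^ (n + 2) * l 0).re = -(‖a‖ * ‖l 0‖) := by
    have e : (starRingEnd ℂ) a * w ^ (n + 2) * l 0 = ((-(‖a‖ * ‖l 0‖) : ℝ) : ℂ) := by
      rw [norm_neg, norm_mul, Complex.norm_conj] at hc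
      rw [Complex.ofReal_neg, ← hc]
      ring
    rw [e, Complex.ofReal_re]
  have hp : 0 < ψ 0 := by
    rw [h0, hre]
    by_cases hn : n = 0
    · subst hn
      have := h2 rfl
      rw [pow_zero, one_mul]
      nlinarith
    · rw [zero_pow hn, zero_mul]
      linarith
  obtain ⟨s, hs0, hs1, hs2⟩ := pick hψ (Ioi_mem_nhds hp) hε
  refine ⟨(s : ℂ) * w, ?_, ?_⟩
  · rw [norm_mul, hw, mul_one, Complex.norm_real, Real.norm_eq_abs, abs_of_pos hs0]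
    exact hs1
  · rw [hs s hs0]
    have : 0 < s ^ (n + 2) * ψ s := mul_pos (pow_pos hs0 _) hs2
    linarith

end Pool.Agent.CVR
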