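import Mathlib

set_option autoImplicit false

/-!
CVR-Exp (Mathlib only). Expansion of a non-affine analytic function at `0`.
-/

namespace Pool.Agent.CVR

open Set Metric Filter Topology

theorem exists_expansion {h : ℂ → ℂ} (ha : AnalyticAt ℂ h 0)
    (hna : ¬ ∀ᶠ z in 𝓝 (0 : ℂ), h z = h 0 + deriv h 0 * z) :
    ∃ (m : ℕ) (k l : ℂ → ℂ), 2 ≤ m ∧ ContinuousAt k 0 ∧ ContinuousAt l 0 ∧ k 0 ≠ 0 ∧ l 0 ≠ 0 ∧
      (m = 2 → k 0 = 2 * l 0 ∧ deriv (deriv h) 0 = k 0) ∧
      ∀ᶠ z in 𝓝 (0 : ℂ), h z - z * deriv h z = h 0 - z ^ m * l z ∧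
        deriv h z = deriv h 0 + z ^ (m - 1) * k z := by
  have hu : AnalyticAt ℂ (fun z => h z - h 0 - deriv h 0 * z) 0 :=
    (ha.sub analyticAt_const).sub (analyticAt_const.mul analyticAt_id)
  have hne : ¬ ∀ᶠ z in 𝓝 (0 : ℂ), (fun z => h z - h 0 - deriv h 0 * z) z = 0 := by
    intro h1
    apply hna
    filter_upwards [h1] with z hz
    have : h z - h 0 - deriv h 0 * z = 0 := hz
    linear_combination this
  obtain ⟨m, g, hg, hg0, hev⟩ := hu.exists_eventuallyEq_pow_smul_nonzero_iff.2 hne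
  have hev' : ∀ᶠ z in 𝓝 (0 : ℂ), h z = h 0 + deriv h 0 * z + z ^ m * g z := by
    filter_upwards [hev] with z hz
    simp only [sub_zero, smul_eq_mul] at hz
    linear_combination hz
  have hgd : ∀ᶠ z in 𝓝 (0 : ℂ), DifferentiableAt ℂ g z :=
    hg.eventually_analyticAt.mono fun z hz => hz.differentiableAt
  -- the derivative near 0
  have hder : ∀ᶠ z in 𝓝 (0 : ℂ), deriv h z = deriv h 0 + (m : ℂ) * z ^ (m - 1) * g z +
      z ^ m * deriv g z := by
    filter_upwards [hev'.eventually_nhds, hgd] with z hz hgz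
    have e1 : deriv h z = deriv (fun z => h 0 + deriv h 0 * z + z ^ m * g z) z :=
      EventuallyEq.deriv_eq hz
    rw [e1]
    have d1 : HasDerivAt (fun z : ℂ => h 0 + deriv h 0 * z) (deriv h 0) z := by
      have := (hasDerivAt_id z).const_mul (deriv h 0)
      simpa using this.const_add (h 0)
    have d2 : HasDerivAt (fun z : ℂ => z ^ m * g z) ((m : ℂ) * z ^ (m - 1) * g z +
        z ^ m * deriv g z) z := (hasDerivAt_pow m z).mul hgz.hasDerivAt
    have d3 := d1.add d2
    have d4 : deriv (fun z => h 0 + deriv h 0 * z + z ^ m * g z) z =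
        deriv h 0 + ((m : ℂ) * z ^ (m - 1) * g z + z ^ m * deriv g z) := d3.deriv
    rw [d4]
    ring
  have h00 : h 0 = h 0 + deriv h 0 * 0 + (0 : ℂ) ^ m * g 0 := hev'.self_of_nhds
  have hm0 : m ≠ 0 := by
    intro e
    rw [e] at h00
    apply hg0
    linear_combination -h00
  have hm1 : m ≠ 1 := by
    intro e
    have h1 := hder.self_of_nhds
    rw [e] at h1
    apply hg0
    simp at h1
    exact h1
  have hm2 : 2 ≤ m := by omega
  have hgc : ContinuousAt g 0 := hg.continuousAt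
  have hdg : ContinuousAt (deriv g) 0 := hg.deriv.continuousAt
  have hid : ContinuousAt (fun z : ℂ => z) 0 := continuousAt_id
  have hk : ContinuousAt (fun z : ℂ => (m : ℂ) * g z + z * deriv g z) 0 :=
    (continuousAt_const.mul hgc).add (hid.mul hdg)
  have hl : ContinuousAt (fun z : ℂ => ((m : ℂ) - 1) * g z + z * deriv g z) 0 :=
    (continuousAt_const.mul hgc).add (hid.mul hdg)
  have hpow : ∀ z : ℂ, z ^ m = z ^ (m - 1) * z := by
    intro z
    rw [← pow_succ]
    congr 1
    omega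
  have hfin : ∀ᶠ z in 𝓝 (0 : ℂ),
      h z - z * deriv h z = h 0 - z ^ m * (((m : ℂ) - 1) * g z + z * deriv g z) ∧
        deriv h z = deriv h 0 + z ^ (m - 1) * ((m : ℂ) * g z + z * deriv g z) := by
    filter_upwards [hev', hder] with z h1 h2
    constructor
    · rw [h1, h2, hpow z]
      ring
    · rw [h2, hpow z]
      ring
  refine ⟨m, fun z => (m : ℂ) * g z + z * deriv g z,
    fun z => ((m : ℂ) - 1) * g z + z * deriv g z, hm2, hk, hl, ?_, ?_, ?_, hfin⟩
  · show (m : ℂ) * g 0 + 0 * deriv g 0 ≠ 0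
    rw [zero_mul, add_zero]
    exact mul_ne_zero (Nat.cast_ne_zero.2 hm0) hg0
  · show ((m : ℂ) - 1) * g 0 + 0 * deriv g 0 ≠ 0
    rw [zero_mul, add_zero]
    refine mul_ne_zero ?_ hg0
    rw [sub_ne_zero]
    intro e
    exact hm1 (by exact_mod_cast e)
  · intro e
    have e2 : (m : ℂ) = 2 := by rw [e]; norm_num
    constructor
    · show (m : ℂ) * g 0 + 0 * deriv g 0 = 2 * (((m : ℂ) - 1) * g 0 + 0 * deriv g 0)
      rw [e2]
      ring
    · show deriv (deriv h) 0 = (m : ℂ) * g 0 + 0 * deriv g 0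
      have e3 : deriv (deriv h) 0 =
          deriv (fun z => deriv h 0 + z * ((m : ℂ) * g z + z * deriv g z)) 0 := by
        apply EventuallyEq.deriv_eq
        filter_upwards [hfin] with z hz
        rw [hz.2, e]
        norm_num
      rw [e3]
      have hkd : DifferentiableAt ℂ (fun z : ℂ => (m : ℂ) * g z + z * deriv g z) 0 :=
        ((differentiableAt_const _).mul hg.differentiableAt).add
          (differentiableAt_id.mul hg.deriv.differentiableAt)
      have d1 : HasDerivAt (fun z : ℂ => z * ((m : ℂ) * g z + z * deriv g z))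
          (1 * ((m : ℂ) * g 0 + 0 * deriv g 0) +
            0 * deriv (fun z : ℂ => (m : ℂ) * g z + z * deriv g z) 0) 0 :=
        (hasDerivAt_id (0 : ℂ)).mul hkd.hasDerivAt
      have d2 := (d1.const_add (deriv h 0)).deriv
      rw [d2]
      ring

end Pool.Agent.CVR
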