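import Pool.Agent.CVR.Defs
import Pool.Agent.CVR.DirB
import Pool.Agent.CVR.DirZ
import Pool.Agent.CVR.Exp

set_option autoImplicit false

/-!
CVR-Loc. `Wf h` has no local minimum and no local maximum at `0` (the second under a condition).
-/

namespace Pool.Agent.CVR

open Set Metric Filter Topology

private lemma wf_zero (h : ℂ → ℂ) : Wf h 0 = ‖h 0‖ ^ 2 - ‖deriv h 0‖ ^ 2 := by
  unfold Wf
  rw [zero_mul, sub_zero]

theorem loc_min {h : ℂ → ℂ} (ha : AnalyticAt ℂ h 0) (h0 : h 0 ≠ 0)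
    (hna : ¬ ∀ᶠ z in 𝓝 (0 : ℂ), h z = h 0 + deriv h 0 * z) {ε : ℝ} (hε : 0 < ε) :
    ∃ z : ℂ, ‖z‖ < ε ∧ Wf h z < Wf h 0 := by
  obtain ⟨m, k, l, hm, hk, hl, hk0, hl0, _, hev⟩ := exists_expansion ha hna
  obtain ⟨δ, hδ, hd⟩ := Metric.eventually_nhds_iff.1 hev
  have key : ∀ z : ℂ, ‖z‖ < min ε δ → Wf h z =
      ‖h 0 - z ^ m * l z‖ ^ 2 - ‖deriv h 0 + z ^ (m - 1) * k z‖ ^ 2 := by
    intro z hz
    obtain ⟨e1, e2⟩ := hd (y := z) (by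
      rw [dist_zero_right]
      exact lt_of_lt_of_le hz (min_le_right _ _))
    unfold Wf
    rw [e1, e2]
  by_cases hb : deriv h 0 = 0
  · obtain ⟨z, hz, hlt⟩ := dir_z_min hm hk hl hl0 h0 (lt_min hε hδ)
    refine ⟨z, lt_of_lt_of_le hz (min_le_left _ _), ?_⟩
    rw [key z hz, wf_zero, hb, zero_add, norm_zero]
    linarith
  · obtain ⟨z, hz, hlt⟩ := (dir_b (a := h 0) hm hk hl hk0 hb (lt_min hε hδ)).1
    refine ⟨z, lt_of_lt_of_le hz (min_le_left _ _), ?_⟩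
    rw [key z hz, wf_zero]
    exact hlt

theorem loc_max {h : ℂ → ℂ} (ha : AnalyticAt ℂ h 0) (h0 : h 0 ≠ 0)
    (hna : ¬ ∀ᶠ z in 𝓝 (0 : ℂ), h z = h 0 + deriv h 0 * z)
    (hs : deriv h 0 = 0 → ‖deriv (deriv h) 0‖ < ‖h 0‖) {ε : ℝ} (hε : 0 < ε) :
    ∃ z : ℂ, ‖z‖ < ε ∧ Wf h 0 < Wf h z := by
  obtain ⟨m, k, l, hm, hk, hl, hk0, hl0, hm2, hev⟩ := exists_expansion ha hna
  obtain ⟨δ, hδ, hd⟩ := Metric.eventually_nhds_iff.1 hev
  have key : ∀ z : ℂ, ‖z‖ < min ε δ → Wf h z =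
      ‖h 0 - z ^ m * l z‖ ^ 2 - ‖deriv h 0 + z ^ (m - 1) * k z‖ ^ 2 := by
    intro z hz
    obtain ⟨e1, e2⟩ := hd (y := z) (by
      rw [dist_zero_right]
      exact lt_of_lt_of_le hz (min_le_right _ _))
    unfold Wf
    rw [e1, e2]
  by_cases hb : deriv h 0 = 0
  · have h2 : m = 2 → ‖k 0‖ ^ 2 < 2 * ‖h 0‖ * ‖l 0‖ := by
      intro hm'
      obtain ⟨e1, e2⟩ := hm2 hm'
      have h3 := hs hb
      rw [e2] at h3
      have h4 : ‖k 0‖ = 2 * ‖l 0‖ := by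
        rw [e1, norm_mul]
        norm_num
      have h5 : 0 < ‖k 0‖ := norm_pos_iff.2 hk0
      nlinarith
    obtain ⟨z, hz, hlt⟩ := dir_z_max hm hk hl hl0 h0 h2 (lt_min hε hδ)
    refine ⟨z, lt_of_lt_of_le hz (min_le_left _ _), ?_⟩
    rw [key z hz, wf_zero, hb, zero_add, norm_zero]
    linarith
  · obtain ⟨z, hz, hlt⟩ := (dir_b (a := h 0) hm hk hl hk0 hb (lt_min hε hδ)).2
    refine ⟨z, lt_of_lt_of_le hz (min_le_left _ _), ?_⟩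
    rw [key z hz, wf_zero]
    exact hlt

end Pool.Agent.CVR
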