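import Pool.Agent.CVR.Defs

set_option autoImplicit false

/-!
CVR-Sch. The strict convexity inequality at a critical point: the Schwarz lemma for
`deriv h / (h - z * deriv h)` and the maximum principle for its difference quotient.
-/

namespace Pool.Agent.CVR

open Set Metric Filter Topology

theorem strict_schwarz {h : ℂ → ℂ} (hd : DifferentiableOn ℂ h (ball 0 1)) {δ M : ℝ} (hδ : 0 < δ)
    (hlow : ∀ z ∈ ball (0 : ℂ) 1, δ ≤ ‖h z‖) (hM : ∀ z ∈ ball (0 : ℂ) 1, ‖deriv h z‖ ≤ M)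
    (hW : ∀ z ∈ ball (0 : ℂ) 1, 0 ≤ Wf h z) (h0 : deriv h 0 = 0) :
    ‖deriv (deriv h) 0‖ < ‖h 0‖ := by
  have h0b : (0 : ℂ) ∈ ball (0 : ℂ) 1 := by simp
  have hnb : ball (0 : ℂ) 1 ∈ 𝓝 (0 : ℂ) := isOpen_ball.mem_nhds h0b
  have hd' : DifferentiableOn ℂ (deriv h) (ball 0 1) := hd.deriv isOpen_ball
  set A : ℂ → ℂ := fun z => h z - z * deriv h z with hA
  have hAd : DifferentiableOn ℂ A (ball 0 1) := hd.sub (differentiableOn_id.mul hd')
  have hBA : ∀ z ∈ ball (0 : ℂ) 1, ‖deriv h z‖ ≤ ‖A z‖ := by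
    intro z hz
    have h1 := hW z hz
    unfold Wf at h1
    exact le_of_sq_le_sq (by linarith) (norm_nonneg _)
  have hA0 : ∀ z ∈ ball (0 : ℂ) 1, A z ≠ 0 := by
    intro z hz hAz
    have h1 := hBA z hz
    rw [hAz, norm_zero] at h1
    have h2 : deriv h z = 0 := norm_le_zero_iff.1 h1
    have h3 : h z = 0 := by
      have : A z = h z - z * deriv h z := rfl
      rw [hAz, h2, mul_zero, sub_zero] at this
      exact this.symm
    have h4 := hlow z hz
    rw [h3, norm_zero] at h4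
    linarith
  set β : ℂ → ℂ := fun z => deriv h z / A z with hβ
  have hβd : DifferentiableOn ℂ β (ball 0 1) := hd'.div hAd hA0
  have hβ1 : ∀ z ∈ ball (0 : ℂ) 1, ‖β z‖ ≤ 1 := by
    intro z hz
    rw [hβ]
    simp only
    rw [norm_div]
    exact div_le_one_of_le₀ (hBA z hz) (norm_nonneg _)
  have hβ0 : β 0 = 0 := by
    rw [hβ]
    simp [h0]
  have hAz : A 0 = h 0 := by
    rw [hA]
    simp
  have hβ' : deriv β 0 = deriv (deriv h) 0 / h 0 := by
    have h1 : DifferentiableAt ℂ (deriv h) 0 := hd'.differentiableAt hnb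
    have h2 : DifferentiableAt ℂ A 0 := hAd.differentiableAt hnb
    have h3 := (h1.hasDerivAt.div h2.hasDerivAt (hA0 0 h0b)).deriv
    have h4 : deriv β 0 = deriv (deriv h / A) 0 := rfl
    rw [h4, h3, h0, hAz]
    have h5 : h 0 ≠ 0 := by
      rw [← hAz]
      exact hA0 0 h0b
    field_simp
    simp
  set χ : ℂ → ℂ := dslope β 0 with hχ
  have hχd : DifferentiableOn ℂ χ (ball 0 1) := (Complex.differentiableOn_dslope hnb).2 hβd
  have hχ0 : χ 0 = deriv (deriv h) 0 / h 0 := by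
    rw [hχ, dslope_same, hβ']
  have hχ1 : ∀ z ∈ ball (0 : ℂ) 1, ‖χ z‖ ≤ 1 := by
    intro z hz
    have hmaps : MapsTo β (ball 0 1) (closedBall (β 0) 1) := by
      intro w hw
      rw [hβ0, mem_closedBall_zero_iff]
      exact hβ1 w hw
    have := Complex.norm_dslope_le_div_of_mapsTo_ball hβd hmaps hz
    simpa using this
  have h0n : 0 < ‖h 0‖ := lt_of_lt_of_le hδ (hlow 0 h0b)
  by_contra hcon
  push Not at hcon
  have hc1 : ‖χ 0‖ = 1 := by
    refine le_antisymm (hχ1 0 h0b) ?_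
    rw [hχ0, norm_div]
    rw [le_div_iff₀ h0n]
    linarith
  have hmax : IsMaxOn (norm ∘ χ) (ball 0 1) 0 := by
    intro z hz
    change ‖χ z‖ ≤ ‖χ 0‖
    rw [hc1]
    exact hχ1 z hz
  have hconst := Complex.eqOn_of_isPreconnected_of_isMaxOn_norm
    (convex_ball (0 : ℂ) 1).isPreconnected isOpen_ball hχd h0b hmax
  set c : ℂ := χ 0 with hc
  have hc0 : c ≠ 0 := by
    intro h
    rw [h, norm_zero] at hc1
    exact zero_ne_one hc1
  have hβc : ∀ z ∈ ball (0 : ℂ) 1, deriv h z * (1 + c * z ^ 2) = c * z * h z := by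
    intro z hz
    have h1 : χ z = c := hconst hz
    have h2 := sub_smul_dslope β 0 z
    rw [← hχ, h1, hβ0, sub_zero, sub_zero, smul_eq_mul] at h2
    have h3 : deriv h z = z * c * A z := by
      rw [h2, hβ]
      simp only
      rw [div_mul_cancel₀ _ (hA0 z hz)]
    have h4 : A z = h z - z * deriv h z := rfl
    rw [h4] at h3
    linear_combination h3
  obtain ⟨ζ, hζ⟩ := IsAlgClosed.exists_pow_nat_eq (-1 / c : ℂ) (n := 2) (by norm_num)
  have hζc : c * ζ ^ 2 = -1 := by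
    rw [hζ]
    field_simp
  have hζn : ‖ζ‖ = 1 := by
    have h1 : ‖c * ζ ^ 2‖ = 1 := by
      rw [hζc]
      simp
    rw [norm_mul, norm_pow, hc1, one_mul] at h1
    nlinarith [norm_nonneg ζ]
  have hkey : ∀ t : ℝ, 0 < t → t < 1 → 0 ≤ M * (1 - t ^ 2) - t * δ := by
    intro t ht0 ht1
    have hz : (t : ℂ) * ζ ∈ ball (0 : ℂ) 1 := by
      rw [mem_ball_zero_iff, norm_mul, hζn, mul_one, Complex.norm_real, Real.norm_of_nonneg ht0.le]
      exact ht1
    have h1 := hβc _ hz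
    have h2 : (1 : ℂ) + c * ((t : ℂ) * ζ) ^ 2 = ((1 - t ^ 2 : ℝ) : ℂ) := by
      push_cast
      linear_combination (t : ℂ) ^ 2 * hζc
    rw [h2] at h1
    have h3 := congrArg norm h1
    rw [norm_mul, norm_mul, norm_mul, hc1, one_mul, norm_mul, hζn, mul_one, Complex.norm_real,
      Complex.norm_real, Real.norm_of_nonneg ht0.le,
      Real.norm_of_nonneg (by nlinarith : (0 : ℝ) ≤ 1 - t ^ 2)] at h3
    have h4 := hM _ hz
    have h5 := hlow _ hz
    have h6 : (0 : ℝ) ≤ 1 - t ^ 2 := by nlinarith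
    have h7 := mul_le_mul_of_nonneg_right h4 h6
    have h8 := mul_le_mul_of_nonneg_left h5 ht0.le
    linarith
  have hlim : Tendsto (fun t : ℝ => M * (1 - t ^ 2) - t * δ) (𝓝[<] 1)
      (𝓝 (M * (1 - 1 ^ 2) - 1 * δ)) := by
    have hcont : Continuous (fun t : ℝ => M * (1 - t ^ 2) - t * δ) := by fun_prop
    exact (hcont.tendsto 1).mono_left nhdsWithin_le_nhds
  have hev : ∀ᶠ t : ℝ in 𝓝[<] 1, 0 ≤ M * (1 - t ^ 2) - t * δ := by
    have h1 : Ioo (0 : ℝ) 1 ∈ 𝓝[<] (1 : ℝ) := Ioo_mem_nhdsLT one_pos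
    filter_upwards [h1] with t ht
    exact hkey t ht.1 ht.2
  have := ge_of_tendsto hlim hev
  linarith

end Pool.Agent.CVR
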