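import Pool.Agent.CVR.Defs
import Pool.Agent.CVR.Loc
import Pool.Agent.CVR.KoeA
import Pool.Agent.CVR.KoeB
import Pool.Agent.CVR.Sch

set_option autoImplicit false

/-!
CVR-Core. The two-sided maximum principle for `W`.

`min_affine`, `max_affine`: transport to the origin by `kt`, then `loc_min`, `loc_max` (with `strict_schwarz`).
`core`: extreme points of `W` on the closed disc.
-/

namespace Pool.Agent.CVR

open Set Metric Filter Topology

theorem min_affine {h : ℂ → ℂ} (hd : DifferentiableOn ℂ h (ball 0 1)) {δ : ℝ} (hδ : 0 < δ)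
    (hlow : ∀ z ∈ ball (0 : ℂ) 1, δ ≤ ‖h z‖) {a : ℂ} (ha : a ∈ ball (0 : ℂ) 1)
    (hmin : ∀ z ∈ ball (0 : ℂ) 1, Wf h a ≤ Wf h z) :
    ∀ z ∈ ball (0 : ℂ) 1, h z = h 0 + deriv h 0 * z := by
  by_contra hcon
  have ha' : ‖a‖ < 1 := by simpa using ha
  have hk : AnalyticAt ℂ (kt h a) 0 :=
    (kt_diff hd ha').analyticAt (isOpen_ball.mem_nhds (mem_ball_self one_pos))
  have hk0 : kt h a 0 ≠ 0 := by
    rw [kt_zero]
    exact norm_pos_iff.1 (hδ.trans_le (hlow a ha))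
  obtain ⟨z, hz, hlt⟩ := loc_min hk hk0 (fun hh => hcon (affine_of_kt hd ha' hh)) one_pos
  rw [Wf_kt hd ha' hz, Wf_kt hd ha' (by simp : ‖(0 : ℂ)‖ < 1), phi_zero] at hlt
  have hpos : 0 < 1 - ‖a‖ ^ 2 := by nlinarith [norm_nonneg a]
  have h1 := lt_of_mul_lt_mul_left hlt hpos.le
  have h2 := hmin (phi a z) (by simpa using phi_mem ha' hz)
  exact absurd h1 (not_lt.2 h2)

theorem max_affine {h : ℂ → ℂ} (hd : DifferentiableOn ℂ h (ball 0 1)) {δ M : ℝ} (hδ : 0 < δ)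
    (hlow : ∀ z ∈ ball (0 : ℂ) 1, δ ≤ ‖h z‖) (hM : ∀ z ∈ ball (0 : ℂ) 1, ‖h z‖ ≤ M ∧ ‖deriv h z‖ ≤ M)
    (hW : ∀ z ∈ ball (0 : ℂ) 1, 0 ≤ Wf h z) {a : ℂ} (ha : a ∈ ball (0 : ℂ) 1)
    (hmax : ∀ z ∈ ball (0 : ℂ) 1, Wf h z ≤ Wf h a) :
    ∀ z ∈ ball (0 : ℂ) 1, h z = h 0 + deriv h 0 * z := by
  by_contra hcon
  have ha' : ‖a‖ < 1 := by simpa using ha
  have hk : AnalyticAt ℂ (kt h a) 0 :=
    (kt_diff hd ha').analyticAt (isOpen_ball.mem_nhds (mem_ball_self one_pos))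
  have hk0 : kt h a 0 ≠ 0 := by
    rw [kt_zero]
    exact norm_pos_iff.1 (hδ.trans_le (hlow a ha))
  have hpos : 0 < 1 - ‖a‖ ^ 2 := by nlinarith [norm_nonneg a]
  have hM0 : 0 ≤ M := (norm_nonneg _).trans (hM a ha).1
  have hs : deriv (kt h a) 0 = 0 → ‖deriv (deriv (kt h a)) 0‖ < ‖kt h a 0‖ := by
    intro h0
    refine strict_schwarz (kt_diff hd ha') (δ := δ * (1 - ‖a‖)) (M := 3 * M)
      (mul_pos hδ (by linarith)) ?_ ?_ ?_ h0
    · intro z hz
      have hz' : ‖z‖ < 1 := by simpa using hz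
      have hw : phi a z ∈ ball (0 : ℂ) 1 := by simpa using phi_mem ha' hz'
      rw [kt, norm_mul]
      have h1 : 1 - ‖a‖ ≤ ‖1 + starRingEnd ℂ a * z‖ := by
        have h2 : ‖(1 : ℂ)‖ ≤ ‖1 + starRingEnd ℂ a * z‖ + ‖starRingEnd ℂ a * z‖ := by
          have := norm_sub_le (1 + starRingEnd ℂ a * z) (starRingEnd ℂ a * z)
          rwa [add_sub_cancel_right] at this
        rw [norm_one, norm_mul, RCLike.norm_conj] at h2
        have h3 : ‖a‖ * ‖z‖ ≤ ‖a‖ := mul_le_of_le_one_right (norm_nonneg a) hz'.le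
        linarith
      exact mul_le_mul (hlow _ hw) h1 (by linarith) (norm_nonneg _)
    · intro z hz
      have hz' : ‖z‖ < 1 := by simpa using hz
      have hw' := phi_mem ha' hz'
      have hw : phi a z ∈ ball (0 : ℂ) 1 := by simpa using hw'
      rw [(kt_hasDerivAt hd ha' hz').deriv]
      obtain ⟨hm1, hm2⟩ := hM _ hw
      have h1 : ‖h (phi a z) - phi a z * deriv h (phi a z)‖ ≤ 2 * M := by
        refine (norm_sub_le _ _).trans ?_
        rw [norm_mul]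
        have h3 : ‖phi a z‖ * ‖deriv h (phi a z)‖ ≤ 1 * M :=
          mul_le_mul hw'.le hm2 (norm_nonneg _) zero_le_one
        linarith
      have h2 : ‖starRingEnd ℂ a * (h (phi a z) - phi a z * deriv h (phi a z))‖ ≤ 2 * M := by
        rw [norm_mul, RCLike.norm_conj]
        calc ‖a‖ * ‖h (phi a z) - phi a z * deriv h (phi a z)‖ ≤ 1 * (2 * M) :=
              mul_le_mul ha'.le h1 (norm_nonneg _) zero_le_one
          _ = 2 * M := one_mul _
      have h4 := norm_add_le (starRingEnd ℂ a * (h (phi a z) - phi a z * deriv h (phi a z)))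
        (deriv h (phi a z))
      linarith
    · intro z hz
      have hz' : ‖z‖ < 1 := by simpa using hz
      have hw : phi a z ∈ ball (0 : ℂ) 1 := by simpa using phi_mem ha' hz'
      rw [Wf_kt hd ha' hz']
      exact mul_nonneg hpos.le (hW _ hw)
  obtain ⟨z, hz, hlt⟩ := loc_max hk hk0 (fun hh => hcon (affine_of_kt hd ha' hh)) hs one_pos
  rw [Wf_kt hd ha' hz, Wf_kt hd ha' (by simp : ‖(0 : ℂ)‖ < 1), phi_zero] at hlt
  have h1 := lt_of_mul_lt_mul_left hlt hpos.le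
  have h2 := hmax (phi a z) (by simpa using phi_mem ha' hz)
  exact absurd h1 (not_lt.2 h2)

theorem core {h : ℂ → ℂ} {W : ℂ → ℝ} {δ M R₁ R₂ : ℝ} (hd : DifferentiableOn ℂ h (ball 0 1))
    (hδ : 0 < δ) (hlow : ∀ z ∈ ball (0 : ℂ) 1, δ ≤ ‖h z‖)
    (hM : ∀ z ∈ ball (0 : ℂ) 1, ‖h z‖ ≤ M ∧ ‖deriv h z‖ ≤ M)
    (hWc : ContinuousOn W (closedBall 0 1)) (hW : ∀ z ∈ ball (0 : ℂ) 1, W z = Wf h z) (hR : 0 ≤ R₁)
    (hb : ∀ z ∈ sphere (0 : ℂ) 1, R₁ ≤ W z ∧ W z ≤ R₂) :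
    (∀ z ∈ ball (0 : ℂ) 1, R₁ ≤ W z ∧ W z ≤ R₂) ∧
    ∀ z ∈ ball (0 : ℂ) 1, (W z = R₁ ∨ W z = R₂) →
      ∀ w ∈ ball (0 : ℂ) 1, h w = h 0 + deriv h 0 * w := by
  have hcl : closure (ball (0 : ℂ) 1) = closedBall 0 1 := closure_ball (0 : ℂ) one_ne_zero
  -- affine functions have a constant `W`
  have haff : (∀ w ∈ ball (0 : ℂ) 1, h w = h 0 + deriv h 0 * w) →
      ∀ z ∈ closedBall (0 : ℂ) 1, W z = ‖h 0‖ ^ 2 - ‖deriv h 0‖ ^ 2 := by
    intro hh
    have h1 : EqOn W (fun _ => ‖h 0‖ ^ 2 - ‖deriv h 0‖ ^ 2) (ball (0 : ℂ) 1) := by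
      intro z hz
      have hder : deriv h z = deriv h 0 := by
        have h2 : h =ᶠ[𝓝 z] fun w => h 0 + deriv h 0 * w := by
          filter_upwards [isOpen_ball.mem_nhds hz] with w hw
          exact hh w hw
        rw [h2.deriv_eq]
        have h3 : HasDerivAt (fun w : ℂ => h 0 + deriv h 0 * w) (deriv h 0 * 1) z :=
          ((hasDerivAt_id z).const_mul (deriv h 0)).const_add (h 0)
        rw [h3.deriv, mul_one]
      show W z = ‖h 0‖ ^ 2 - ‖deriv h 0‖ ^ 2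
      rw [hW z hz, Wf, hder, hh z hz]
      congr 3
      ring
    exact EqOn.of_subset_closure h1 hWc continuousOn_const ball_subset_closedBall hcl.ge
  have hone : (1 : ℂ) ∈ sphere (0 : ℂ) 1 := by simp
  have hone' : (1 : ℂ) ∈ closedBall (0 : ℂ) 1 := sphere_subset_closedBall hone
  have hcomp : IsCompact (closedBall (0 : ℂ) 1) := isCompact_closedBall _ _
  have hne : (closedBall (0 : ℂ) 1).Nonempty := ⟨1, hone'⟩
  have hlowW : ∀ z ∈ closedBall (0 : ℂ) 1, R₁ ≤ W z := by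
    obtain ⟨z₁, hz₁, hmin⟩ := hcomp.exists_isMinOn hne hWc
    intro z hz
    rcases (mem_closedBall.1 hz₁).lt_or_eq with hlt | heq
    · have hball : z₁ ∈ ball (0 : ℂ) 1 := hlt
      have hh := min_affine hd hδ hlow hball (fun w hw => by
        rw [← hW z₁ hball, ← hW w hw]
        exact hmin (ball_subset_closedBall hw))
      rw [haff hh z hz, ← haff hh 1 hone']
      exact (hb 1 hone).1
    · exact (hb z₁ heq).1.trans (hmin hz)
  have hW0 : ∀ z ∈ ball (0 : ℂ) 1, 0 ≤ Wf h z := by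
    intro z hz
    rw [← hW z hz]
    exact hR.trans (hlowW z (ball_subset_closedBall hz))
  have hupW : ∀ z ∈ closedBall (0 : ℂ) 1, W z ≤ R₂ := by
    obtain ⟨z₂, hz₂, hmax⟩ := hcomp.exists_isMaxOn hne hWc
    intro z hz
    rcases (mem_closedBall.1 hz₂).lt_or_eq with hlt | heq
    · have hball : z₂ ∈ ball (0 : ℂ) 1 := hlt
      have hh := max_affine hd hδ hlow hM hW0 hball (fun w hw => by
        rw [← hW z₂ hball, ← hW w hw]
        exact hmax (ball_subset_closedBall hw))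
      rw [haff hh z hz, ← haff hh 1 hone']
      exact (hb 1 hone).2
    · exact (hmax hz).trans (hb z₂ heq).2
  refine ⟨fun z hz => ⟨hlowW z (ball_subset_closedBall hz), hupW z (ball_subset_closedBall hz)⟩, ?_⟩
  rintro z hz (h1 | h1)
  · refine min_affine hd hδ hlow hz fun w hw => ?_
    rw [← hW z hz, ← hW w hw, h1]
    exact hlowW w (ball_subset_closedBall hw)
  · refine max_affine hd hδ hlow hM hW0 hz fun w hw => ?_
    rw [← hW z hz, ← hW w hw, h1]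
    exact hupW w (ball_subset_closedBall hw)

end Pool.Agent.CVR
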