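import Mathlib

set_option autoImplicit false

/-!
# Convex classes with boundary curvature bounds: definitions

`CV R₁ R₂ f`: `f` is analytic, univalent and convex in the unit disc, `f 0 = 0`, `f' 0 = 1`, the
functions `f`, `f'`, `f''` extend continuously to the closed disc, `f'` has no zeros there, and the
curvature of the boundary curve lies between `R₁` and `R₂`.
-/

namespace Pool.Agent.CVR

open Set Metric

/-- the second Taylor coefficient at the origin -/
noncomputable def a2 (f : ℂ → ℂ) : ℂ := deriv (deriv f) 0 / 2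

/-- the third Taylor coefficient at the origin -/
noncomputable def a3 (f : ℂ → ℂ) : ℂ := deriv (deriv (deriv f)) 0 / 6

/-- the curvature of the boundary curve at the image of `z`, `‖z‖ = 1`, where `g₁` and `g₂` are the
boundary values of `f'` and `f''` -/
noncomputable def curv (g₁ g₂ : ℂ → ℂ) (z : ℂ) : ℝ := (1 + z * g₂ z / g₁ z).re / ‖g₁ z‖

/-- boundary regularity: `g₀`, `g₁`, `g₂` are continuous on the closed disc, they extend `f`, `f'`,
`f''`, and `g₁` has no zeros on the closed disc -/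
structure Reg (f g₀ g₁ g₂ : ℂ → ℂ) : Prop where
  c0 : ContinuousOn g₀ (closedBall 0 1)
  c1 : ContinuousOn g₁ (closedBall 0 1)
  c2 : ContinuousOn g₂ (closedBall 0 1)
  e0 : EqOn g₀ f (ball 0 1)
  e1 : EqOn g₁ (deriv f) (ball 0 1)
  e2 : EqOn g₂ (deriv (deriv f)) (ball 0 1)
  ne : ∀ z ∈ closedBall (0 : ℂ) 1, g₁ z ≠ 0

/-- the class `CV(R₁, R₂)` of the problem -/
structure CV (R₁ R₂ : ℝ) (f : ℂ → ℂ) : Prop where
  holo : DifferentiableOn ℂ f (ball 0 1)
  inj : InjOn f (ball 0 1)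
  conv : Convex ℝ (f '' ball 0 1)
  zero : f 0 = 0
  one : deriv f 0 = 1
  bdry : ∃ g₀ g₁ g₂ : ℂ → ℂ, Reg f g₀ g₁ g₂ ∧
    ∀ z ∈ sphere (0 : ℂ) 1, R₁ ≤ curv g₁ g₂ z ∧ curv g₁ g₂ z ≤ R₂

/-- the curvature function in terms of `h = (f')^(-1/2)` -/
noncomputable def Wf (h : ℂ → ℂ) (z : ℂ) : ℝ := ‖h z - z * deriv h z‖ ^ 2 - ‖deriv h z‖ ^ 2

/-- the curvature function in terms of `g₁ = f'` and `g₂ = f''` -/
noncomputable def Wg (g₁ g₂ : ℂ → ℂ) (z : ℂ) : ℝ :=
  (‖1 + z * (g₂ z / (2 * g₁ z))‖ ^ 2 - ‖g₂ z / (2 * g₁ z)‖ ^ 2) / ‖g₁ z‖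

/-- the disc automorphism with `phi a 0 = a` -/
noncomputable def phi (a z : ℂ) : ℂ := (z + a) / (1 + starRingEnd ℂ a * z)

/-- the transformation of `h = (f')^(-1/2)` under `f ↦ f ∘ phi a` (up to a constant factor) -/
noncomputable def kt (h : ℂ → ℂ) (a z : ℂ) : ℂ := h (phi a z) * (1 + starRingEnd ℂ a * z)

/-- the Taylor coefficients at the origin -/
noncomputable def tc (h : ℂ → ℂ) (n : ℕ) : ℂ := iteratedDeriv n h 0 / (n.factorial : ℂ)

end Pool.Agent.CVR
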