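import Pool.Agent.CVR.Defs

set_option autoImplicit false

/-!
CVR-Disc. The disc maps `z / (1 - a z)` belong to the class: the image of the unit disc is a disc of
radius `1 / (1 - ‖a‖ ^ 2)` and the curvature of its boundary is `1 - ‖a‖ ^ 2`.
-/

namespace Pool.Agent.CVR

open Set Metric Filter Topology

private theorem hd1 (a z : ℂ) (h : 1 - a * z ≠ 0) :
    HasDerivAt (fun z : ℂ => z / (1 - a * z)) (1 / (1 - a * z) ^ 2) z := by
  have h1 : HasDerivAt (fun z : ℂ => 1 - a * z) (-a) z := by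
    simpa using ((hasDerivAt_id z).const_mul a).const_sub 1
  have h2 := (hasDerivAt_id z).div h1 h
  have h3 : (1 * (1 - a * z) - id z * -a) / (1 - a * z) ^ 2 = 1 / (1 - a * z) ^ 2 := by
    congr 1
    simp only [id]
    ring
  rw [h3] at h2
  exact h2

private theorem hd2 (a z : ℂ) (h : 1 - a * z ≠ 0) :
    HasDerivAt (fun z : ℂ => 1 / (1 - a * z) ^ 2) (2 * a / (1 - a * z) ^ 3) z := by
  have h1 : HasDerivAt (fun z : ℂ => 1 - a * z) (-a) z := by
    simpa using ((hasDerivAt_id z).const_mul a).const_sub 1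
  have h2 := (h1.pow 2).fun_inv (pow_ne_zero 2 h)
  simp only [one_div]
  have h3 : -(((2 : ℕ) : ℂ) * (1 - a * z) ^ (2 - 1) * -a) / ((1 - a * z) ^ 2) ^ 2 =
      2 * a / (1 - a * z) ^ 3 := by
    rw [div_eq_div_iff (pow_ne_zero 2 (pow_ne_zero 2 h)) (pow_ne_zero 3 h)]
    push_cast
    ring
  rw [← h3]
  exact h2

private theorem op (a : ℂ) : IsOpen {z : ℂ | 1 - a * z ≠ 0} :=
  isOpen_ne_fun (by fun_prop) continuous_const

private theorem dr1 (a z : ℂ) (h : 1 - a * z ≠ 0) :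
    deriv (fun z : ℂ => z / (1 - a * z)) z = 1 / (1 - a * z) ^ 2 := (hd1 a z h).deriv

private theorem dr2 (a z : ℂ) (h : 1 - a * z ≠ 0) :
    deriv (deriv (fun z : ℂ => z / (1 - a * z))) z = 2 * a / (1 - a * z) ^ 3 := by
  have h1 : deriv (fun z : ℂ => z / (1 - a * z)) =ᶠ[𝓝 z] fun z => 1 / (1 - a * z) ^ 2 := by
    filter_upwards [(op a).mem_nhds h] with w hw
    exact dr1 a w hw
  rw [h1.deriv_eq]
  exact (hd2 a z h).deriv

private theorem ne1 {a z : ℂ} (ha : ‖a‖ < 1) (hz : ‖z‖ ≤ 1) : 1 - a * z ≠ 0 := by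
  intro h
  have h1 : a * z = 1 := (sub_eq_zero.1 h).symm
  have h2 : ‖a * z‖ = 1 := by rw [h1, norm_one]
  rw [norm_mul] at h2
  have h3 : ‖a‖ * ‖z‖ ≤ ‖a‖ * 1 := mul_le_mul_of_nonneg_left hz (norm_nonneg a)
  linarith

theorem disc_a2 (a : ℂ) : a2 (fun z => z / (1 - a * z)) = a := by
  unfold a2
  rw [dr2 a 0 (by simp)]
  simp

private theorem key (a w : ℂ) (D : ℝ) (hD : D = 1 - ‖a‖ ^ 2) (hp : 0 < D) :
    ‖w - starRingEnd ℂ a / (D : ℂ)‖ ^ 2 < (1 / D) ^ 2 ↔ ‖w‖ ^ 2 < ‖1 + a * w‖ ^ 2 := by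
  have hne : D ≠ 0 := hp.ne'
  have h1 : D * (‖w - starRingEnd ℂ a / (D : ℂ)‖ ^ 2 - (1 / D) ^ 2) =
      ‖w‖ ^ 2 - ‖1 + a * w‖ ^ 2 := by
    rw [Complex.sq_norm, Complex.sq_norm, Complex.sq_norm, Complex.normSq_apply,
      Complex.normSq_apply, Complex.normSq_apply]
    rw [Complex.sq_norm, Complex.normSq_apply] at hD
    have e1 : (w - starRingEnd ℂ a / (D : ℂ)).re = w.re - a.re / D := by
      rw [Complex.sub_re, Complex.div_ofReal_re, Complex.conj_re]
    have e2 : (w - starRingEnd ℂ a / (D : ℂ)).im = w.im + a.im / D := by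
      rw [Complex.sub_im, Complex.div_ofReal_im, Complex.conj_im]
      ring
    have e3 : (1 + a * w).re = 1 + (a.re * w.re - a.im * w.im) := by simp
    have e4 : (1 + a * w).im = a.re * w.im + a.im * w.re := by simp
    rw [e1, e2, e3, e4]
    have e5 : a.re * a.re + a.im * a.im = 1 - D := by linarith
    have e6 : D * ((w.re - a.re / D) * (w.re - a.re / D) + (w.im + a.im / D) * (w.im + a.im / D) -
        (1 / D) ^ 2) = D * (w.re * w.re + w.im * w.im) - 2 * (a.re * w.re - a.im * w.im) +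
        ((a.re * a.re + a.im * a.im) - 1) / D := by
      field_simp
      ring
    rw [e6, e5]
    have e7 : (1 - D - 1) / D = -1 := by
      field_simp
      ring
    rw [e7]
    linear_combination (w.re * w.re + w.im * w.im) * e5
  constructor
  · intro h
    have : D * (‖w - starRingEnd ℂ a / (D : ℂ)‖ ^ 2 - (1 / D) ^ 2) < 0 :=
      mul_neg_of_pos_of_neg hp (by linarith)
    linarith
  · intro h
    have h2 : D * (‖w - starRingEnd ℂ a / (D : ℂ)‖ ^ 2 - (1 / D) ^ 2) < 0 := by linarith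
    by_contra h3
    have h4 : 0 ≤ ‖w - starRingEnd ℂ a / (D : ℂ)‖ ^ 2 - (1 / D) ^ 2 := by linarith
    have h5 := mul_nonneg hp.le h4
    linarith

private theorem img (a : ℂ) (ha : ‖a‖ < 1) :
    (fun z : ℂ => z / (1 - a * z)) '' ball 0 1 =
      ball (starRingEnd ℂ a / ((1 - ‖a‖ ^ 2 : ℝ) : ℂ)) (1 / (1 - ‖a‖ ^ 2)) := by
  have hp : 0 < 1 - ‖a‖ ^ 2 := by
    have := norm_nonneg a
    nlinarith
  have hmem : ∀ w : ℂ, w ∈ ball (starRingEnd ℂ a / ((1 - ‖a‖ ^ 2 : ℝ) : ℂ)) (1 / (1 - ‖a‖ ^ 2)) ↔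
      ‖w‖ ^ 2 < ‖1 + a * w‖ ^ 2 := by
    intro w
    rw [← key a w (1 - ‖a‖ ^ 2) rfl hp, mem_ball, dist_eq_norm]
    have h1 : 0 ≤ 1 / (1 - ‖a‖ ^ 2) := by positivity
    exact (sq_lt_sq₀ (norm_nonneg _) h1).symm
  ext w
  rw [hmem]
  constructor
  · rintro ⟨z, hz, rfl⟩
    have hz1 : ‖z‖ < 1 := by simpa using hz
    have hn := ne1 ha hz1.le
    have e1 : 1 + a * (z / (1 - a * z)) = 1 / (1 - a * z) := by
      field_simp
      ring
    show ‖z / (1 - a * z)‖ ^ 2 < ‖1 + a * (z / (1 - a * z))‖ ^ 2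
    rw [e1, norm_div, norm_div, norm_one]
    have h2 : 0 < ‖1 - a * z‖ := norm_pos_iff.2 hn
    have h3 : ‖z‖ / ‖1 - a * z‖ < 1 / ‖1 - a * z‖ := div_lt_div_of_pos_right hz1 h2
    exact pow_lt_pow_left₀ h3 (by positivity) two_ne_zero
  · intro hw
    have hn : 1 + a * w ≠ 0 := by
      intro h
      rw [h, norm_zero] at hw
      have := sq_nonneg ‖w‖
      simp only [ne_eq, OfNat.ofNat_ne_zero, not_false_eq_true, zero_pow] at hw
      linarith
    refine ⟨w / (1 + a * w), ?_, ?_⟩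
    · have h2 : 0 < ‖1 + a * w‖ := norm_pos_iff.2 hn
      have h3 : ‖w‖ < ‖1 + a * w‖ := lt_of_pow_lt_pow_left₀ 2 (norm_nonneg _) hw
      rw [mem_ball_zero_iff, norm_div]
      exact (div_lt_one h2).2 h3
    · have e1 : 1 - a * (w / (1 + a * w)) = 1 / (1 + a * w) := by
        field_simp
        ring
      show w / (1 + a * w) / (1 - a * (w / (1 + a * w))) = w
      rw [e1, div_div_eq_mul_div, div_one, div_mul_cancel₀ _ hn]

private theorem curv_eq (a z : ℂ) (ha : ‖a‖ < 1) (hz : ‖z‖ = 1) :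
    curv (fun z => 1 / (1 - a * z) ^ 2) (fun z => 2 * a / (1 - a * z) ^ 3) z = 1 - ‖a‖ ^ 2 := by
  have hn := ne1 ha hz.le
  unfold curv
  have e1 : 1 + z * (2 * a / (1 - a * z) ^ 3) / (1 / (1 - a * z) ^ 2) =
      (1 + a * z) / (1 - a * z) := by
    have h3 : z * (2 * a / (1 - a * z) ^ 3) / (1 / (1 - a * z) ^ 2) = 2 * (a * z) / (1 - a * z) := by
      rw [div_div_eq_mul_div, div_one, eq_div_iff hn]
      rw [mul_div_assoc', div_mul_eq_mul_div, div_mul_eq_mul_div, div_eq_iff (pow_ne_zero 3 hn)]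
      ring
    rw [h3]
    rw [eq_div_iff hn, add_mul, div_mul_cancel₀ _ hn]
    ring
  show (1 + z * (2 * a / (1 - a * z) ^ 3) / (1 / (1 - a * z) ^ 2)).re /
    ‖1 / (1 - a * z) ^ 2‖ = 1 - ‖a‖ ^ 2
  rw [e1]
  have e2 : ‖a‖ ^ 2 = ‖a * z‖ ^ 2 := by rw [norm_mul, hz, mul_one]
  rw [e2]
  generalize a * z = u at hn
  have h2 : 0 < Complex.normSq (1 - u) := Complex.normSq_pos.2 hn
  rw [norm_div, norm_one, norm_pow, Complex.sq_norm, Complex.sq_norm, Complex.div_re]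
  rw [one_div, div_inv_eq_mul]
  have e3 : ((1 + u).re * (1 - u).re / Complex.normSq (1 - u) +
      (1 + u).im * (1 - u).im / Complex.normSq (1 - u)) * Complex.normSq (1 - u) =
      (1 + u).re * (1 - u).re + (1 + u).im * (1 - u).im := by
    field_simp
  rw [e3, Complex.normSq_apply]
  simp
  ring

theorem disc_mem {a : ℂ} (ha : ‖a‖ < 1) {R₁ R₂ : ℝ} (h1 : R₁ ≤ 1 - ‖a‖ ^ 2)
    (h2 : 1 - ‖a‖ ^ 2 ≤ R₂) : CV R₁ R₂ (fun z => z / (1 - a * z)) := by
  have hne : ∀ z ∈ closedBall (0 : ℂ) 1, 1 - a * z ≠ 0 := by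
    intro z hz
    exact ne1 ha (by simpa using hz)
  have hsub : ball (0 : ℂ) 1 ⊆ closedBall 0 1 := ball_subset_closedBall
  refine ⟨?_, ?_, ?_, ?_, ?_, ?_⟩
  · intro z hz
    exact (hd1 a z (hne z (hsub hz))).differentiableAt.differentiableWithinAt
  · intro z hz w hw h
    have n1 := hne z (hsub hz)
    have n2 := hne w (hsub hw)
    have h3 : z / (1 - a * z) = w / (1 - a * w) := h
    rw [div_eq_div_iff n1 n2] at h3
    linear_combination h3
  · rw [img a ha]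
    exact convex_ball _ _
  · simp
  · rw [dr1 a 0 (by simp)]
    simp
  · refine ⟨fun z => z / (1 - a * z), fun z => 1 / (1 - a * z) ^ 2,
      fun z => 2 * a / (1 - a * z) ^ 3, ⟨?_, ?_, ?_, ?_, ?_, ?_, ?_⟩, ?_⟩
    · exact ContinuousOn.div (by fun_prop) (by fun_prop) hne
    · exact ContinuousOn.div (by fun_prop) (by fun_prop) fun z hz => pow_ne_zero 2 (hne z hz)
    · exact ContinuousOn.div (by fun_prop) (by fun_prop) fun z hz => pow_ne_zero 3 (hne z hz)
    · exact fun z _ => rfl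
    · intro z hz
      exact (dr1 a z (hne z (hsub hz))).symm
    · intro z hz
      exact (dr2 a z (hne z (hsub hz))).symm
    · intro z hz
      exact one_div_ne_zero (pow_ne_zero 2 (hne z hz))
    · intro z hz
      rw [curv_eq a z ha (by simpa using hz)]
      exact ⟨h1, h2⟩

end Pool.Agent.CVR
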