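import Mathlib

set_option autoImplicit false

/-!
CVR-Sq (Mathlib only). The function `h = (f')^(-1/2)` of a locally injective `f` on the unit disc, built
from a primitive of `f'' / (2 f')`.
-/

namespace Pool.Agent.CVR

open Set Metric Filter Topology

theorem exists_h {f : ℂ → ℂ} (hf : DifferentiableOn ℂ f (ball 0 1))
    (hne : ∀ z ∈ ball (0 : ℂ) 1, deriv f z ≠ 0) (h1 : deriv f 0 = 1) :
    ∃ h : ℂ → ℂ, DifferentiableOn ℂ h (ball 0 1) ∧ h 0 = 1 ∧
      (∀ z ∈ ball (0 : ℂ) 1, deriv f z * h z ^ 2 = 1) ∧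
      ∀ z ∈ ball (0 : ℂ) 1, deriv h z = -(deriv (deriv f) z / (2 * deriv f z)) * h z := by
  have hd1 : DifferentiableOn ℂ (deriv f) (ball 0 1) := hf.deriv isOpen_ball
  have hd2 : DifferentiableOn ℂ (deriv (deriv f)) (ball 0 1) := hd1.deriv isOpen_ball
  have hq : DifferentiableOn ℂ (fun z => deriv (deriv f) z / (2 * deriv f z)) (ball 0 1) := by
    apply hd2.div (hd1.const_mul 2)
    intro z hz
    exact mul_ne_zero two_ne_zero (hne z hz)
  obtain ⟨L, hL⟩ := hq.isExactOn_ball
  have h0 : (0 : ℂ) ∈ ball (0 : ℂ) 1 := by simp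
  have hh : ∀ z ∈ ball (0 : ℂ) 1, HasDerivAt (fun w => Complex.exp (L 0 - L w))
      (-(deriv (deriv f) z / (2 * deriv f z)) * Complex.exp (L 0 - L z)) z := by
    intro z hz
    have e1 := (((hL z hz).const_sub (L 0)).cexp)
    refine e1.congr_deriv ?_
    ring
  have hk : ∀ z ∈ ball (0 : ℂ) 1,
      HasDerivAt (fun w => deriv f w * Complex.exp (L 0 - L w) ^ 2) 0 z := by
    intro z hz
    have e1 : HasDerivAt (deriv f) (deriv (deriv f) z) z :=
      (hd1.differentiableAt (isOpen_ball.mem_nhds hz)).hasDerivAt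
    have e2 := e1.mul ((hh z hz).pow 2)
    refine e2.congr_deriv ?_
    have := hne z hz
    rw [Pi.pow_apply]
    field_simp
    ring
  have hc : ∀ z ∈ ball (0 : ℂ) 1, deriv f z * Complex.exp (L 0 - L z) ^ 2 = 1 := by
    intro z hz
    have hdo : DifferentiableOn ℂ (fun w => deriv f w * Complex.exp (L 0 - L w) ^ 2) (ball 0 1) :=
      fun w hw => (hk w hw).differentiableAt.differentiableWithinAt
    have := isOpen_ball.is_const_of_deriv_eq_zero (convex_ball (0 : ℂ) 1).isPreconnected hdo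
      (fun w hw => (hk w hw).deriv) hz h0
    rw [this, h1]
    simp
  exact ⟨fun w => Complex.exp (L 0 - L w),
    fun z hz => (hh z hz).differentiableAt.differentiableWithinAt, by simp, hc,
    fun z hz => (hh z hz).deriv⟩

end Pool.Agent.CVR
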