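import Pool.Agent.CVR.Core
import Pool.Agent.CVR.Bd
import Pool.Agent.CVR.Disc
import Pool.Agent.CVR.Sq

set_option autoImplicit false

/-!
The second coefficient in the classes `CV(R₁, R₂)`: assembly.
-/

namespace Pool.Agent.CVR

open Set Metric Filter Topology

private theorem zero_mem : (0 : ℂ) ∈ ball (0 : ℂ) 1 := by simp

private theorem Wf_zero {f h : ℂ → ℂ} (h1 : deriv f 0 = 1) (h0 : h 0 = 1)
    (hh : ∀ z ∈ ball (0 : ℂ) 1, deriv h z = -(deriv (deriv f) z / (2 * deriv f z)) * h z) :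
    Wf h 0 = 1 - ‖a2 f‖ ^ 2 ∧ deriv h 0 = -a2 f := by
  have h3 : deriv h 0 = -a2 f := by
    rw [hh 0 zero_mem, h1, h0, a2]
    ring
  refine ⟨?_, h3⟩
  unfold Wf
  rw [h3, h0]
  simp

private theorem reg_ne {f g₀ g₁ g₂ : ℂ → ℂ} (H : Reg f g₀ g₁ g₂) :
    ∀ z ∈ ball (0 : ℂ) 1, deriv f z ≠ 0 := by
  intro z hz
  rw [← H.e1 hz]
  exact H.ne z (ball_subset_closedBall hz)

/-- if `(f')^(-1/2)` is affine, then `f` is a disc map -/
private theorem disc_of_affine {f h : ℂ → ℂ} {a : ℂ} {δ : ℝ} (hδ : 0 < δ)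
    (hf : DifferentiableOn ℂ f (ball 0 1)) (hf0 : f 0 = 0)
    (hlow : ∀ z ∈ ball (0 : ℂ) 1, δ ≤ ‖h z‖)
    (hq : ∀ z ∈ ball (0 : ℂ) 1, deriv f z * h z ^ 2 = 1)
    (haf : ∀ w ∈ ball (0 : ℂ) 1, h w = 1 - a * w) :
    ∀ z ∈ ball (0 : ℂ) 1, f z = z / (1 - a * z) := by
  have hne1 : ∀ z ∈ ball (0 : ℂ) 1, 1 - a * z ≠ 0 := by
    intro z hz h9
    have h4 := hlow z hz
    rw [haf z hz, h9, norm_zero] at h4
    linarith
  have hder : ∀ z ∈ ball (0 : ℂ) 1, HasDerivAt (fun z => f z - z / (1 - a * z)) 0 z := by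
    intro z hz
    have e1 : HasDerivAt f (deriv f z) z :=
      (hf.differentiableAt (isOpen_ball.mem_nhds hz)).hasDerivAt
    have e2 : HasDerivAt (fun z => 1 - a * z) (-a) z := by
      simpa using ((hasDerivAt_id z).const_mul a).const_sub 1
    have e3 := (hasDerivAt_id z).div e2 (hne1 z hz)
    have e4 := e1.sub e3
    have e5 : deriv f z - (1 * (1 - a * z) - id z * -a) / (1 - a * z) ^ 2 = 0 := by
      have h6 := hq z hz
      rw [haf z hz] at h6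
      have h7 := hne1 z hz
      field_simp
      simp only [id]
      linear_combination h6
    rw [e5] at e4
    exact e4
  intro z hz
  have h8 := isOpen_ball.is_const_of_deriv_eq_zero (convex_ball (0 : ℂ) 1).isPreconnected
    (fun z hz => (hder z hz).differentiableAt.differentiableWithinAt)
    (fun z hz => (hder z hz).deriv) hz zero_mem
  simp only [hf0, zero_div, sub_zero] at h8
  exact sub_eq_zero.mp h8

/-- the two-sided bound at every point of the disc, with the case of equality -/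
theorem pointwise {R₁ R₂ : ℝ} (hR : 0 ≤ R₁) {f : ℂ → ℂ} (hf : CV R₁ R₂ f) :
    ∀ z ∈ ball (0 : ℂ) 1,
      R₁ * ((1 - ‖z‖ ^ 2) * ‖deriv f z‖) ≤
        1 - ‖((1 - ‖z‖ ^ 2 : ℝ) : ℂ) * deriv (deriv f) z / (2 * deriv f z) -
          starRingEnd ℂ z‖ ^ 2 ∧
      1 - ‖((1 - ‖z‖ ^ 2 : ℝ) : ℂ) * deriv (deriv f) z / (2 * deriv f z) -
          starRingEnd ℂ z‖ ^ 2 ≤ R₂ * ((1 - ‖z‖ ^ 2) * ‖deriv f z‖) ∧
      ((1 - ‖((1 - ‖z‖ ^ 2 : ℝ) : ℂ) * deriv (deriv f) z / (2 * deriv f z) -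
          starRingEnd ℂ z‖ ^ 2 = R₁ * ((1 - ‖z‖ ^ 2) * ‖deriv f z‖) ∨
        1 - ‖((1 - ‖z‖ ^ 2 : ℝ) : ℂ) * deriv (deriv f) z / (2 * deriv f z) -
          starRingEnd ℂ z‖ ^ 2 = R₂ * ((1 - ‖z‖ ^ 2) * ‖deriv f z‖)) →
        ∀ w ∈ ball (0 : ℂ) 1, f w = w / (1 - a2 f * w)) := by
  obtain ⟨g₀, g₁, g₂, H, hb⟩ := hf.bdry
  have hne := reg_ne H
  obtain ⟨h, hd, h0, hq, hh⟩ := exists_h hf.holo hne hf.one
  obtain ⟨δ, M, hδ, hlow, hM⟩ := bounds H hq hh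
  have hWb := Wg_ball H hq hh
  obtain ⟨hc, he⟩ := core (W := Wg g₁ g₂) (R₁ := R₁) (R₂ := R₂) hd hδ hlow hM (Wg_cont H) hWb hR
    (by
      intro z hz
      rw [Wg_sphere (by simpa using hz)]
      exact hb z hz)
  obtain ⟨-, hd0⟩ := Wf_zero hf.one h0 hh
  intro z hz
  have hz1 : ‖z‖ < 1 := by simpa using hz
  have hz2 : 0 < 1 - ‖z‖ ^ 2 := by nlinarith [norm_nonneg z]
  have hp : 0 < (1 - ‖z‖ ^ 2) * ‖deriv f z‖ := mul_pos hz2 (norm_pos_iff.mpr (hne z hz))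
  have hcz := hc z hz
  have hez := he z hz
  rw [Wg_eq hz1 (H.ne z (ball_subset_closedBall hz)), H.e1 hz, H.e2 hz] at hcz hez
  rw [le_div_iff₀ hp, div_le_iff₀ hp] at hcz
  rw [div_eq_iff hp.ne', div_eq_iff hp.ne'] at hez
  refine ⟨hcz.1, hcz.2, fun hor => ?_⟩
  refine disc_of_affine hδ hf.holo hf.zero hlow hq fun w hw => ?_
  rw [hez hor w hw, h0, hd0]
  ring

/-- the bounds, and `f` is a disc map in the case of equality -/
theorem main_bounds {R₁ R₂ : ℝ} (hR : 0 ≤ R₁) {f : ℂ → ℂ} (hf : CV R₁ R₂ f) :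
    1 - R₂ ≤ ‖a2 f‖ ^ 2 ∧ ‖a2 f‖ ^ 2 ≤ 1 - R₁ ∧ ‖a2 f‖ < 1 ∧
    ((‖a2 f‖ ^ 2 = 1 - R₁ ∨ ‖a2 f‖ ^ 2 = 1 - R₂) →
      ∀ z ∈ ball (0 : ℂ) 1, f z = z / (1 - a2 f * z)) := by
  obtain ⟨h1, h2, h3⟩ := pointwise hR hf 0 zero_mem
  have e : ‖((1 - ‖(0 : ℂ)‖ ^ 2 : ℝ) : ℂ) * deriv (deriv f) 0 / (2 * deriv f 0) -
      starRingEnd ℂ 0‖ = ‖a2 f‖ := by
    rw [hf.one, a2]
    simp
  have e1 : (1 - ‖(0 : ℂ)‖ ^ 2) * ‖deriv f 0‖ = 1 := by
    rw [hf.one]
    simp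
  rw [e, e1, mul_one] at h1 h2 h3
  rw [mul_one] at h3
  have heq : (‖a2 f‖ ^ 2 = 1 - R₁ ∨ ‖a2 f‖ ^ 2 = 1 - R₂) →
      ∀ z ∈ ball (0 : ℂ) 1, f z = z / (1 - a2 f * z) := by
    intro hor
    exact h3 (by rcases hor with hor | hor <;> [left; right] <;> linarith)
  refine ⟨by linarith, by linarith, ?_, heq⟩
  -- `|a2 f| < 1`
  by_contra hcon
  push Not at hcon
  have hle : ‖a2 f‖ ^ 2 ≤ 1 := by linarith
  have h4 : ‖a2 f‖ = 1 := by nlinarith [norm_nonneg (a2 f)]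
  have hR1 : R₁ = 0 := by
    have : ‖a2 f‖ ^ 2 = 1 := by rw [h4]; norm_num
    linarith
  have hfd := heq (Or.inl (by rw [h4, hR1]; norm_num))
  obtain ⟨g₀, g₁, g₂, H, -⟩ := hf.bdry
  -- `f` is unbounded, but `g₀` is continuous on the closed disc
  obtain ⟨C, hC⟩ := (isCompact_closedBall (0 : ℂ) 1).exists_bound_of_continuousOn H.c0
  have hC0 : 0 ≤ C := le_trans (norm_nonneg _) (hC 0 (by simp))
  set t : ℝ := 1 - 1 / (C + 2) with ht
  have hp : 0 < C + 2 := by linarith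
  have ht1 : t < 1 := by
    rw [ht]
    have : 0 < 1 / (C + 2) := by positivity
    linarith
  have ht0 : 0 ≤ t := by
    rw [ht]
    have : 1 / (C + 2) ≤ 1 := by
      rw [div_le_one hp]
      linarith
    linarith
  have hmem : (t : ℂ) * starRingEnd ℂ (a2 f) ∈ ball (0 : ℂ) 1 := by
    rw [mem_ball_zero_iff, norm_mul, RCLike.norm_conj, h4, mul_one, Complex.norm_real,
      Real.norm_of_nonneg ht0]
    exact ht1
  have h5 := hfd _ hmem
  have h6 : a2 f * ((t : ℂ) * starRingEnd ℂ (a2 f)) = t := by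
    have : a2 f * starRingEnd ℂ (a2 f) = 1 := by
      rw [Complex.mul_conj, Complex.normSq_eq_norm_sq, h4]
      norm_num
    calc a2 f * ((t : ℂ) * starRingEnd ℂ (a2 f)) = t * (a2 f * starRingEnd ℂ (a2 f)) := by ring
      _ = t := by rw [this, mul_one]
  rw [h6] at h5
  have h7 := hC _ (ball_subset_closedBall hmem)
  rw [H.e0 hmem, h5, norm_div, norm_mul, RCLike.norm_conj, h4, mul_one, Complex.norm_real,
    Real.norm_of_nonneg ht0] at h7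
  have h8 : ‖(1 : ℂ) - (t : ℂ)‖ = 1 / (C + 2) := by
    rw [← Complex.ofReal_one, ← Complex.ofReal_sub, Complex.norm_real,
      Real.norm_of_nonneg (by linarith), ht]
    ring
  rw [h8, div_div_eq_mul_div, div_one, ht] at h7
  have h9 : (1 - 1 / (C + 2)) * (C + 2) = C + 1 := by
    field_simp
    ring
  rw [h9] at h7
  linarith

/-- the exact range of the second coefficient -/
theorem range_eq {R₁ R₂ : ℝ} (hR : 0 ≤ R₁) :
    {a : ℂ | ∃ f : ℂ → ℂ, CV R₁ R₂ f ∧ a2 f = a} =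
      {a : ℂ | 1 - R₂ ≤ ‖a‖ ^ 2 ∧ ‖a‖ ^ 2 ≤ 1 - R₁ ∧ ‖a‖ < 1} := by
  ext a
  constructor
  · rintro ⟨f, hf, rfl⟩
    obtain ⟨h1, h2, h3, -⟩ := main_bounds hR hf
    exact ⟨h1, h2, h3⟩
  · rintro ⟨h1, h2, h3⟩
    exact ⟨_, disc_mem h3 (by linarith) (by linarith), disc_a2 a⟩

theorem exists_iff {R₁ R₂ : ℝ} (hR : 0 ≤ R₁) (h12 : R₁ ≤ R₂) :
    (∃ f : ℂ → ℂ, CV R₁ R₂ f) ↔ R₁ ≤ 1 ∧ 0 < R₂ := by
  constructor
  · rintro ⟨f, hf⟩
    obtain ⟨h1, h2, h3, -⟩ := main_bounds hR hf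
    have h4 : ‖a2 f‖ ^ 2 < 1 := by nlinarith [norm_nonneg (a2 f)]
    exact ⟨by nlinarith [sq_nonneg ‖a2 f‖], by linarith⟩
  · rintro ⟨h1, h2⟩
    have hs : 0 ≤ 1 - min R₂ 1 := by
      have := min_le_right R₂ 1
      linarith
    have hm : 0 < min R₂ 1 := lt_min h2 one_pos
    have hn : ‖((Real.sqrt (1 - min R₂ 1) : ℝ) : ℂ)‖ = Real.sqrt (1 - min R₂ 1) := by
      rw [Complex.norm_real, Real.norm_of_nonneg (Real.sqrt_nonneg _)]
    have hn2 : ‖((Real.sqrt (1 - min R₂ 1) : ℝ) : ℂ)‖ ^ 2 = 1 - min R₂ 1 := by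
      rw [hn, Real.sq_sqrt hs]
    refine ⟨_, disc_mem (a := ((Real.sqrt (1 - min R₂ 1) : ℝ) : ℂ)) ?_ ?_ ?_⟩
    · have : ‖((Real.sqrt (1 - min R₂ 1) : ℝ) : ℂ)‖ ^ 2 < 1 := by rw [hn2]; linarith
      nlinarith [norm_nonneg ((Real.sqrt (1 - min R₂ 1) : ℝ) : ℂ)]
    · rw [hn2]
      have := le_min h12 h1
      linarith
    · rw [hn2]
      have := min_le_left R₂ 1
      linarith

/-- supremum and minimum of `|a₂|` -/
theorem sup_min {R₁ R₂ : ℝ} (hR : 0 ≤ R₁) (h12 : R₁ ≤ R₂) (hex : R₁ ≤ 1 ∧ 0 < R₂) :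
    IsLUB {x : ℝ | ∃ f : ℂ → ℂ, CV R₁ R₂ f ∧ ‖a2 f‖ = x} (Real.sqrt (1 - R₁)) ∧
    IsLeast {x : ℝ | ∃ f : ℂ → ℂ, CV R₁ R₂ f ∧ ‖a2 f‖ = x} (Real.sqrt (1 - R₂)) := by
  obtain ⟨hR1, hR2⟩ := hex
  have key : ∀ x : ℝ, 0 ≤ x → x < 1 → 1 - R₂ ≤ x ^ 2 → x ^ 2 ≤ 1 - R₁ →
      x ∈ {x : ℝ | ∃ f : ℂ → ℂ, CV R₁ R₂ f ∧ ‖a2 f‖ = x} := by
    intro x h0 h1 h2 h3
    have hn : ‖(x : ℂ)‖ = x := by rw [Complex.norm_real, Real.norm_of_nonneg h0]
    refine ⟨_, disc_mem (a := (x : ℂ)) (by rw [hn]; exact h1) (by rw [hn]; linarith)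
      (by rw [hn]; linarith), ?_⟩
    rw [disc_a2, hn]
  constructor
  · constructor
    · rintro x ⟨f, hf, rfl⟩
      obtain ⟨-, h2, -, -⟩ := main_bounds hR hf
      exact Real.le_sqrt_of_sq_le h2
    · intro y hy
      by_contra hcon
      push Not at hcon
      -- choose `x` in the set with `x > y`
      have hs1 : Real.sqrt (1 - R₁) ≤ 1 := by
        rw [Real.sqrt_le_one]
        linarith
      have hsq : Real.sqrt (1 - R₁) ^ 2 = 1 - R₁ := Real.sq_sqrt (by linarith)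
      have hs0 : 0 ≤ Real.sqrt (1 - R₁) := Real.sqrt_nonneg _
      rcases lt_or_eq_of_le hs1 with hlt | heq
      · have := hy (key _ hs0 hlt (by rw [hsq]; linarith) (by rw [hsq]))
        linarith
      · have hR10 : R₁ = 0 := by
          rw [heq] at hsq
          linarith
        -- `R₁ = 0`
        have h3 : y < 1 := by rw [← heq]; exact hcon
        obtain ⟨x, hx1, hx2⟩ := exists_between (max_lt (max_lt h3 one_pos)
          (show Real.sqrt (1 - min R₂ 1) < 1 by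
            rw [Real.sqrt_lt' one_pos]
            have := lt_min hR2 one_pos
            linarith) : max (max y 0) (Real.sqrt (1 - min R₂ 1)) < 1)
        have hx3 : y < x := lt_of_le_of_lt (le_trans (le_max_left _ _) (le_max_left _ _)) hx1
        have hx4 : 0 < x := lt_of_le_of_lt (le_trans (le_max_right _ _) (le_max_left _ _)) hx1
        have hx5 : Real.sqrt (1 - min R₂ 1) < x := lt_of_le_of_lt (le_max_right _ _) hx1
        have hx6 : 1 - min R₂ 1 < x ^ 2 := by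
          have := (Real.sqrt_lt' hx4).mp hx5
          exact this
        have hx7 := hy (key x hx4.le hx2 (by have := min_le_left R₂ 1; linarith)
          (by rw [hR10]; nlinarith))
        linarith
  · constructor
    · rcases le_total R₂ 1 with h | h
      · have hsq : Real.sqrt (1 - R₂) ^ 2 = 1 - R₂ := Real.sq_sqrt (by linarith)
        refine key _ (Real.sqrt_nonneg _) ?_ hsq.ge (by rw [hsq]; linarith)
        rw [Real.sqrt_lt' one_pos]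
        linarith
      · rw [Real.sqrt_eq_zero_of_nonpos (by linarith)]
        exact key 0 le_rfl one_pos (by norm_num; linarith) (by norm_num; linarith)
    · rintro x ⟨f, hf, rfl⟩
      obtain ⟨h1, -, -, -⟩ := main_bounds hR hf
      exact (Real.sqrt_le_left (norm_nonneg _)).mpr h1

end Pool.Agent.CVR
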