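import Pool.Agent.CVR.Defs
import Pool.Agent.Helper59.Parseval

set_option autoImplicit false

/-!
CVR-Mean. The circle average of `Wf h` over `‖z‖ = r`.

With `h z = ∑ a n z^n` the functions `h z - z h' z` and `h' z` have the coefficients `(1 - n) a n` and
`(n + 1) a (n + 1)`; Parseval (`circleAverage_norm_sq_tsum`) gives the average as a series whose terms of index `≥ 2` are
nonpositive.
-/

namespace Pool.Agent.CVR

open Set Metric Filter Topology

private theorem tc_hasSum {h : ℂ → ℂ} (hd : DifferentiableOn ℂ h (ball 0 1)) {z : ℂ}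
    (hz : z ∈ ball (0 : ℂ) 1) : HasSum (fun n : ℕ => tc h n * z ^ n) (h z) := by
  have h1 := Complex.hasSum_taylorSeries_on_ball hd hz
  refine h1.congr_fun ?_
  intro n
  rw [smul_eq_mul, smul_eq_mul, sub_zero, tc, div_eq_mul_inv]
  ring

private theorem tc_deriv (h : ℂ → ℂ) (n : ℕ) : tc (deriv h) n = ((n : ℂ) + 1) * tc h (n + 1) := by
  have h0 : ((n.factorial : ℕ) : ℂ) ≠ 0 := by
    exact_mod_cast n.factorial_ne_zero
  have h1 : ((n : ℂ) + 1) ≠ 0 := by
    exact_mod_cast n.succ_ne_zero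
  rw [tc, tc, ← iteratedDeriv_succ', Nat.factorial_succ]
  push_cast
  field_simp

private theorem dh_diff {h : ℂ → ℂ} (hd : DifferentiableOn ℂ h (ball 0 1)) :
    DifferentiableOn ℂ (deriv h) (ball 0 1) :=
  hd.deriv isOpen_ball

private theorem zd_hasSum {h : ℂ → ℂ} (hd : DifferentiableOn ℂ h (ball 0 1)) {z : ℂ}
    (hz : z ∈ ball (0 : ℂ) 1) :
    HasSum (fun n : ℕ => (1 - (n : ℂ)) * tc h n * z ^ n) (h z - z * deriv h z) := by
  have h1 := (tc_hasSum (dh_diff hd) hz).mul_left z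
  have h2 : HasSum (fun n : ℕ => (n : ℂ) * tc h n * z ^ n) (z * deriv h z) := by
    rw [← hasSum_nat_add_iff' 1]
    rw [Finset.sum_range_one]
    have e : z * deriv h z - ((0 : ℕ) : ℂ) * tc h 0 * z ^ 0 = z * deriv h z := by
      rw [Nat.cast_zero]
      ring
    rw [e]
    refine h1.congr_fun ?_
    intro n
    rw [tc_deriv, pow_succ]
    push_cast
    ring
  refine ((tc_hasSum hd hz).sub h2).congr_fun ?_
  intro n
  ring

private theorem avg_series {g : ℂ → ℂ} {c : ℕ → ℂ} {r : ℝ} (h0 : 0 < r) (h1 : r < 1)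
    (hg : ∀ z ∈ ball (0 : ℂ) 1, HasSum (fun n : ℕ => c n * z ^ n) (g z)) :
    Summable (fun n => ‖c n‖ ^ 2 * r ^ (2 * n)) ∧
      Real.circleAverage (fun z => ‖g z‖ ^ 2) 0 r = ∑' n, ‖c n‖ ^ 2 * r ^ (2 * n) := by
  have hr : (r : ℂ) ∈ ball (0 : ℂ) 1 := by
    rw [mem_ball_zero_iff, Complex.norm_real, Real.norm_of_nonneg h0.le]
    exact h1
  have hs : Summable fun n => ‖c n‖ * r ^ n := by
    have h2 := (hg _ hr).summable.norm
    refine h2.congr fun n => ?_
    rw [norm_mul, norm_pow, Complex.norm_real, Real.norm_of_nonneg h0.le]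
  constructor
  · have h2 := hs.tendsto_atTop_zero.eventually (gt_mem_nhds one_pos)
    refine Summable.of_norm_bounded_eventually_nat hs ?_
    filter_upwards [h2] with n hn
    have h3 : 0 ≤ ‖c n‖ * r ^ n := by positivity
    rw [Real.norm_of_nonneg (by positivity)]
    have h4 : ‖c n‖ ^ 2 * r ^ (2 * n) = (‖c n‖ * r ^ n) * (‖c n‖ * r ^ n) := by ring
    rw [h4]
    exact mul_le_of_le_one_left h3 hn.le
  · rw [← Pool.Agent.Helper59.circleAverage_norm_sq_tsum h0.le hs]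
    refine Real.circleAverage_congr_sphere ?_
    intro z hz
    rw [mem_sphere_zero_iff_norm, abs_of_pos h0] at hz
    have h2 : z ∈ ball (0 : ℂ) 1 := by
      rw [mem_ball_zero_iff, hz]
      exact h1
    show ‖g z‖ ^ 2 = ‖∑' n, c n * z ^ n‖ ^ 2
    rw [(hg z h2).tsum_eq]

theorem mean_le {h : ℂ → ℂ} (hd : DifferentiableOn ℂ h (ball 0 1)) {r : ℝ} (h0 : 0 < r)
    (h1 : r < 1) (N : ℕ) :
    Real.circleAverage (Wf h) 0 r + ∑ n ∈ Finset.Ico 2 N,
      ((n : ℝ) ^ 2 * r ^ (2 * n - 2) - ((n : ℝ) - 1) ^ 2 * r ^ (2 * n)) * ‖tc h n‖ ^ 2 ≤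
      ‖h 0‖ ^ 2 - ‖deriv h 0‖ ^ 2 := by
  have hdd := dh_diff hd
  obtain ⟨sA, eA⟩ := avg_series h0 h1 (g := fun z => h z - z * deriv h z)
    (c := fun n : ℕ => (1 - (n : ℂ)) * tc h n) (fun z hz => zd_hasSum hd hz)
  obtain ⟨sB, eB⟩ := avg_series h0 h1 (g := deriv h)
    (c := fun n : ℕ => tc (deriv h) n) (fun z hz => tc_hasSum hdd hz)
  have hsub : closedBall (0 : ℂ) r ⊆ ball 0 1 := closedBall_subset_ball h1
  have hsph : sphere (0 : ℂ) |r| ⊆ ball 0 1 := by
    rw [abs_of_pos h0]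
    exact sphere_subset_closedBall.trans hsub
  have iA : CircleIntegrable (fun z => ‖h z - z * deriv h z‖ ^ 2) 0 r := by
    apply ContinuousOn.circleIntegrable'
    exact ((hd.continuousOn.sub (continuousOn_id.mul hdd.continuousOn)).norm.pow 2).mono hsph
  have iB : CircleIntegrable (fun z => ‖deriv h z‖ ^ 2) 0 r := by
    apply ContinuousOn.circleIntegrable'
    exact (hdd.continuousOn.norm.pow 2).mono hsph
  have eW : Real.circleAverage (Wf h) 0 r =
      Real.circleAverage (fun z => ‖h z - z * deriv h z‖ ^ 2) 0 r -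
        Real.circleAverage (fun z => ‖deriv h z‖ ^ 2) 0 r := by
    rw [← Real.circleAverage_fun_sub iA iB]
    rfl
  set d : ℕ → ℝ := fun n =>
    ((n : ℝ) ^ 2 * r ^ (2 * n - 2) - ((n : ℝ) - 1) ^ 2 * r ^ (2 * n)) * ‖tc h n‖ ^ 2 with hdef
  -- the two series
  set b : ℕ → ℝ := fun n => ((n : ℝ) - 1) ^ 2 * r ^ (2 * n) * ‖tc h n‖ ^ 2 with hb
  set c : ℕ → ℝ := fun n => (n : ℝ) ^ 2 * r ^ (2 * n - 2) * ‖tc h n‖ ^ 2 with hc
  have eb : ∀ n : ℕ, ‖(1 - (n : ℂ)) * tc h n‖ ^ 2 * r ^ (2 * n) = b n := by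
    intro n
    have e1 : ‖(1 - (n : ℂ))‖ ^ 2 = ((n : ℝ) - 1) ^ 2 := by
      have e2 : (1 - (n : ℂ)) = ((1 - (n : ℝ) : ℝ) : ℂ) := by push_cast; rfl
      rw [e2, Complex.norm_real, Real.norm_eq_abs, sq_abs]
      ring
    rw [norm_mul, mul_pow, e1, hb]
    ring
  have ec : ∀ n : ℕ, ‖tc (deriv h) n‖ ^ 2 * r ^ (2 * n) = c (n + 1) := by
    intro n
    have e1 : ‖((n : ℂ) + 1)‖ ^ 2 = ((n + 1 : ℕ) : ℝ) ^ 2 := by
      have e2 : ((n : ℂ) + 1) = ((n + 1 : ℕ) : ℂ) := by push_cast; rfl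
      rw [e2, Complex.norm_natCast]
    have e3 : 2 * (n + 1) - 2 = 2 * n := by omega
    rw [tc_deriv, norm_mul, mul_pow, e1, hc]
    simp only [e3]
    ring
  have c0 : c 0 = 0 := by
    rw [hc]
    simp
  have sb : Summable b := sA.congr eb
  have sc1 : Summable (fun n => c (n + 1)) := sB.congr ec
  have sc : Summable c := (summable_nat_add_iff 1).1 sc1
  have tA : Real.circleAverage (fun z => ‖h z - z * deriv h z‖ ^ 2) 0 r = ∑' n, b n := by
    rw [eA]
    exact tsum_congr eb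
  have tB : Real.circleAverage (fun z => ‖deriv h z‖ ^ 2) 0 r = ∑' n, c n := by
    rw [eB, tsum_congr ec, sc.tsum_eq_zero_add, c0, zero_add]
  have ed : ∀ n, d n = c n - b n := by
    intro n
    rw [hdef, hb, hc]
    ring
  have sd : Summable d := (sc.sub sb).congr fun n => (ed n).symm
  have td : ∑' n, d n = ∑' n, c n - ∑' n, b n := by
    rw [← sc.tsum_sub sb]
    exact tsum_congr ed
  have dpos : ∀ n, 2 ≤ n → 0 ≤ d n := by
    intro n hn
    rw [hdef]
    refine mul_nonneg (sub_nonneg.2 ?_) (by positivity)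
    have e1 : r ^ (2 * n) = r ^ (2 * n - 2) * r ^ 2 := by
      rw [← pow_add]
      congr 1
      omega
    have hn' : (2 : ℝ) ≤ n := by exact_mod_cast hn
    have e2 : ((n : ℝ) - 1) ^ 2 ≤ (n : ℝ) ^ 2 := by nlinarith
    have e3 : r ^ (2 * n) ≤ r ^ (2 * n - 2) := by
      rw [e1]
      exact mul_le_of_le_one_right (by positivity) (pow_le_one₀ h0.le h1.le)
    exact mul_le_mul e2 e3 (by positivity) (by positivity)
  have hfin : ∑ n ∈ Finset.range 2 ∪ Finset.Ico 2 N, d n ≤ ∑' n, d n := by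
    refine sd.sum_le_tsum _ fun n hn => dpos n ?_
    by_contra hlt
    exact hn (Finset.mem_union_left _ (Finset.mem_range.2 (by omega)))
  have hdis : Disjoint (Finset.range 2) (Finset.Ico 2 N) := by
    rw [Finset.disjoint_left]
    intro n h2 h3
    rw [Finset.mem_range] at h2
    rw [Finset.mem_Ico] at h3
    omega
  rw [Finset.sum_union hdis, Finset.sum_range_succ, Finset.sum_range_one] at hfin
  have d0 : d 0 = -‖h 0‖ ^ 2 := by
    rw [hdef]
    have e : tc h 0 = h 0 := by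
      rw [tc, iteratedDeriv_zero, Nat.factorial_zero, Nat.cast_one, div_one]
    simp only [e]
    norm_num
  have d1 : d 1 = ‖deriv h 0‖ ^ 2 := by
    rw [hdef]
    have e : tc h 1 = deriv h 0 := by
      rw [tc, iteratedDeriv_one, Nat.factorial_one, Nat.cast_one, div_one]
    simp only [e]
    norm_num
  rw [d0, d1] at hfin
  rw [eW, tA, tB]
  linarith [hfin, td]

end Pool.Agent.CVR
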