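import Pool.Agent.CVR.Defs
import Pool.Agent.CVR.Mean

set_option autoImplicit false

/-!
CVR-MeanB. The mean of the boundary curvature: the limit `r → 1` in `mean_le`.
-/

namespace Pool.Agent.CVR

open Set Metric Filter Topology

theorem mean_bdry {h : ℂ → ℂ} {W : ℂ → ℝ} (hd : DifferentiableOn ℂ h (ball 0 1))
    (hWc : ContinuousOn W (closedBall 0 1)) (hW : ∀ z ∈ ball (0 : ℂ) 1, W z = Wf h z) (N : ℕ) :
    Real.circleAverage W 0 1 + ∑ n ∈ Finset.Ico 2 N, (2 * (n : ℝ) - 1) * ‖tc h n‖ ^ 2 ≤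
      ‖h 0‖ ^ 2 - ‖deriv h 0‖ ^ 2 := by
  have hc : ContinuousOn (Real.circleAverage W 0) (Icc (0 : ℝ) 1) := by
    apply Real.ContinuousOn.circleAverage
    · refine hWc.mono ?_
      intro z hz
      rw [mem_setOf_eq, sub_zero] at hz
      rw [mem_closedBall, dist_zero_right]
      exact hz.2
    · intro r hr
      exact hr.1
  have ht1 : Tendsto (Real.circleAverage W 0) (𝓝[<] (1 : ℝ))
      (𝓝 (Real.circleAverage W 0 1)) := by
    have h := hc 1 (right_mem_Icc.2 zero_le_one)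
    have h2 := h.mono (Ioo_subset_Icc_self : Ioo (0 : ℝ) 1 ⊆ Icc 0 1)
    have h3 : 𝓝[Ioo (0 : ℝ) 1] (1 : ℝ) = 𝓝[<] 1 := nhdsWithin_Ioo_eq_nhdsLT zero_lt_one
    rw [ContinuousWithinAt, h3] at h2
    exact h2
  have ht2 : Tendsto (fun r : ℝ => ∑ n ∈ Finset.Ico 2 N,
      ((n : ℝ) ^ 2 * r ^ (2 * n - 2) - ((n : ℝ) - 1) ^ 2 * r ^ (2 * n)) * ‖tc h n‖ ^ 2)
      (𝓝[<] (1 : ℝ)) (𝓝 (∑ n ∈ Finset.Ico 2 N, (2 * (n : ℝ) - 1) * ‖tc h n‖ ^ 2)) := by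
    have hcont : Continuous (fun r : ℝ => ∑ n ∈ Finset.Ico 2 N,
      ((n : ℝ) ^ 2 * r ^ (2 * n - 2) - ((n : ℝ) - 1) ^ 2 * r ^ (2 * n)) * ‖tc h n‖ ^ 2) := by
      fun_prop
    have h2 := (hcont.tendsto 1).mono_left (nhdsWithin_le_nhds (s := Iio (1 : ℝ)))
    have h3 : ∑ n ∈ Finset.Ico 2 N, ((n : ℝ) ^ 2 * (1 : ℝ) ^ (2 * n - 2) -
        ((n : ℝ) - 1) ^ 2 * (1 : ℝ) ^ (2 * n)) * ‖tc h n‖ ^ 2 =
        ∑ n ∈ Finset.Ico 2 N, (2 * (n : ℝ) - 1) * ‖tc h n‖ ^ 2 := by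
      apply Finset.sum_congr rfl
      intro n _
      rw [one_pow, one_pow]
      ring
    rw [h3] at h2
    exact h2
  refine le_of_tendsto (ht1.add ht2) ?_
  have hev : Ioo (0 : ℝ) 1 ∈ 𝓝[<] (1 : ℝ) := Ioo_mem_nhdsLT zero_lt_one
  filter_upwards [hev] with r hr
  have h1 := mean_le hd hr.1 hr.2 N
  have h2 : Real.circleAverage W 0 r = Real.circleAverage (Wf h) 0 r := by
    apply Real.circleAverage_congr_sphere
    intro z hz
    apply hW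
    rw [mem_sphere, dist_zero_right, abs_of_pos hr.1] at hz
    rw [mem_ball, dist_zero_right, hz]
    exact hr.2
  rw [h2]
  exact h1

end Pool.Agent.CVR
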