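import Pool.Agent.CVR.Defs

set_option autoImplicit false

/-!
CVR-Stab. Pointwise distance to the affine part (`stab`: Taylor series on the ball and the
Cauchy-Schwarz inequality), and the third coefficient (`tc_two`: differentiate
`deriv h z = - q z * h z`, `q = f'' / (2 f')`, at the origin).
-/

namespace Pool.Agent.CVR

open Set Metric Filter Topology

private lemma hasSum_tc {h : ℂ → ℂ} (hd : DifferentiableOn ℂ h (ball 0 1)) {z : ℂ}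
    (hz : z ∈ ball (0 : ℂ) 1) : HasSum (fun n : ℕ => tc h n * z ^ n) (h z) := by
  have H := Complex.hasSum_taylorSeries_on_ball hd hz
  have e : (fun n : ℕ => ((n.factorial : ℂ))⁻¹ • (z - 0) ^ n • iteratedDeriv n h 0) =
      fun n : ℕ => tc h n * z ^ n := by
    funext n
    simp only [sub_zero, smul_eq_mul, tc]
    ring
  rw [e] at H
  exact H

private lemma norm_S_le {h : ℂ → ℂ} {E : ℝ} (hE0 : 0 ≤ E)
    (hE : ∀ N : ℕ, ∑ n ∈ Finset.Ico 2 N, (2 * (n : ℝ) - 1) * ‖tc h n‖ ^ 2 ≤ E) {z : ℂ}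
    (hz : ‖z‖ < 1) (N : ℕ) :
    ‖∑ n ∈ Finset.Ico 2 N, tc h n * z ^ n‖ ^ 2 ≤ E * (‖z‖ ^ 4 / (3 * (1 - ‖z‖ ^ 2))) := by
  have hz0 : 0 ≤ ‖z‖ := norm_nonneg z
  have hx1 : ‖z‖ ^ 2 < 1 := by nlinarith
  have hx0 : 0 ≤ ‖z‖ ^ 2 := sq_nonneg _
  have hsq : ∑ n ∈ Finset.Ico 2 N, ‖tc h n‖ ^ 2 ≤ E / 3 := by
    have h3 : 3 * ∑ n ∈ Finset.Ico 2 N, ‖tc h n‖ ^ 2 ≤ E := by
      rw [Finset.mul_sum]
      refine le_trans (Finset.sum_le_sum fun n hn => ?_) (hE N)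
      have hn2 : (2 : ℝ) ≤ (n : ℝ) := by exact_mod_cast (Finset.mem_Ico.1 hn).1
      have := sq_nonneg ‖tc h n‖
      nlinarith
    linarith
  have hgeo : ∑ n ∈ Finset.Ico 2 N, (‖z‖ ^ n) ^ 2 ≤ ‖z‖ ^ 4 / (1 - ‖z‖ ^ 2) := by
    have hg := geom_sum_Ico_le_of_lt_one (m := 2) (n := N) hx0 hx1
    have e1 : ∑ n ∈ Finset.Ico 2 N, (‖z‖ ^ n) ^ 2 = ∑ n ∈ Finset.Ico 2 N, (‖z‖ ^ 2) ^ n := by
      refine Finset.sum_congr rfl fun n _ => ?_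
      rw [← pow_mul, ← pow_mul, mul_comm]
    have e2 : (‖z‖ ^ 2) ^ 2 = ‖z‖ ^ 4 := by ring
    rw [e1, ← e2]
    exact hg
  have hnorm : ‖∑ n ∈ Finset.Ico 2 N, tc h n * z ^ n‖ ≤
      ∑ n ∈ Finset.Ico 2 N, ‖tc h n‖ * ‖z‖ ^ n := by
    refine le_trans (norm_sum_le _ _) (le_of_eq ?_)
    refine Finset.sum_congr rfl fun n _ => ?_
    rw [norm_mul, norm_pow]
  calc ‖∑ n ∈ Finset.Ico 2 N, tc h n * z ^ n‖ ^ 2
      ≤ (∑ n ∈ Finset.Ico 2 N, ‖tc h n‖ * ‖z‖ ^ n) ^ 2 :=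
        pow_le_pow_left₀ (norm_nonneg _) hnorm 2
    _ ≤ (∑ n ∈ Finset.Ico 2 N, ‖tc h n‖ ^ 2) * ∑ n ∈ Finset.Ico 2 N, (‖z‖ ^ n) ^ 2 :=
        Finset.sum_mul_sq_le_sq_mul_sq _ _ _
    _ ≤ (E / 3) * (‖z‖ ^ 4 / (1 - ‖z‖ ^ 2)) :=
        mul_le_mul hsq hgeo (Finset.sum_nonneg fun n _ => sq_nonneg _) (by linarith)
    _ = E * (‖z‖ ^ 4 / (3 * (1 - ‖z‖ ^ 2))) := by
        have : (1 - ‖z‖ ^ 2) ≠ 0 := by linarith
        field_simp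

theorem stab {h : ℂ → ℂ} (hd : DifferentiableOn ℂ h (ball 0 1)) {E : ℝ}
    (hE : ∀ N : ℕ, ∑ n ∈ Finset.Ico 2 N, (2 * (n : ℝ) - 1) * ‖tc h n‖ ^ 2 ≤ E) {z : ℂ}
    (hz : z ∈ ball (0 : ℂ) 1) :
    ‖h z - (h 0 + deriv h 0 * z)‖ ^ 2 ≤ E * (‖z‖ ^ 4 / (3 * (1 - ‖z‖ ^ 2))) := by
  have hE0 : 0 ≤ E := by simpa using hE 0
  have hz1 : ‖z‖ < 1 := by simpa using hz
  have hT := (hasSum_tc hd hz).tendsto_sum_nat
  have hS : Tendsto (fun N : ℕ => ∑ n ∈ Finset.Ico 2 N, tc h n * z ^ n) atTop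
      (𝓝 (h z - (h 0 + deriv h 0 * z))) := by
    have h2 : ∑ n ∈ Finset.range 2, tc h n * z ^ n = h 0 + deriv h 0 * z := by
      simp [Finset.sum_range_succ, tc, iteratedDeriv_one, iteratedDeriv_zero]
    have hT' := hT.sub_const (h 0 + deriv h 0 * z)
    refine hT'.congr' ?_
    filter_upwards [eventually_ge_atTop 2] with N hN
    rw [Finset.sum_Ico_eq_sub _ hN, h2]
  have hS2 := (hS.norm).pow 2
  exact le_of_tendsto' hS2 fun N => norm_S_le hE0 hE hz1 N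

theorem tc_two {f h : ℂ → ℂ} (hf : DifferentiableOn ℂ f (ball 0 1))
    (hne : ∀ z ∈ ball (0 : ℂ) 1, deriv f z ≠ 0) (h1 : deriv f 0 = 1)
    (hd : DifferentiableOn ℂ h (ball 0 1)) (h0 : h 0 = 1)
    (hh : ∀ z ∈ ball (0 : ℂ) 1, deriv h z = -(deriv (deriv f) z / (2 * deriv f z)) * h z) :
    deriv h 0 = -a2 f ∧ tc h 2 = -(3 / 2) * (a3 f - a2 f ^ 2) := by
  have m0 : (0 : ℂ) ∈ ball (0 : ℂ) 1 := by simp
  have nb : ball (0 : ℂ) 1 ∈ 𝓝 (0 : ℂ) := isOpen_ball.mem_nhds m0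
  have hf1 : DifferentiableOn ℂ (deriv f) (ball 0 1) := hf.deriv isOpen_ball
  have hf2 : DifferentiableOn ℂ (deriv (deriv f)) (ball 0 1) := hf1.deriv isOpen_ball
  have d1 : HasDerivAt (deriv f) (deriv (deriv f) 0) 0 := (hf1.differentiableAt nb).hasDerivAt
  have d2 : HasDerivAt (deriv (deriv f)) (deriv (deriv (deriv f)) 0) 0 :=
    (hf2.differentiableAt nb).hasDerivAt
  have dh : HasDerivAt h (deriv h 0) 0 := (hd.differentiableAt nb).hasDerivAt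
  have e1 : deriv h 0 = -a2 f := by
    rw [hh 0 m0, h1, h0, a2]
    ring
  refine ⟨e1, ?_⟩
  have hne0 : (2 : ℂ) * deriv f 0 ≠ 0 := by rw [h1]; norm_num
  have dq := ((d2.div (d1.const_mul (2 : ℂ)) hne0).neg).mul dh
  have ev : deriv h =ᶠ[𝓝 0] fun z => -(deriv (deriv f) z / (2 * deriv f z)) * h z := by
    filter_upwards [nb] with z hz
    exact hh z hz
  have e2 : deriv (deriv h) 0 = _ := ev.deriv_eq.trans dq.deriv
  have e3 : tc h 2 = deriv (deriv h) 0 / 2 := by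
    simp [tc, iteratedDeriv_succ, iteratedDeriv_zero]
  rw [e3, e2, h1, h0, e1]
  simp only [a2, a3, Pi.neg_apply, Pi.div_apply]
  rw [h1]
  ring

end Pool.Agent.CVR
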