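import Pool.Agent.CVR.Bd
import Pool.Agent.CVR.Sq
import Pool.Agent.CVR.MeanB
import Pool.Agent.CVR.Stab

set_option autoImplicit false

/-!
The quantitative form of the upper bound for the second coefficient: assembly.
-/

namespace Pool.Agent.CVR

open Set Metric Filter Topology

private theorem average_congr {u v : ℂ → ℝ} (huv : ∀ z : ℂ, ‖z‖ = 1 → u z = v z) :
    Real.circleAverage u 0 1 = Real.circleAverage v 0 1 := by
  unfold Real.circleAverage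
  congr 1
  refine intervalIntegral.integral_congr fun θ _ => ?_
  exact huv _ (by simp)

theorem stability {f g₀ g₁ g₂ : ℂ → ℂ} (hf : DifferentiableOn ℂ f (ball 0 1))
    (h1 : deriv f 0 = 1) (H : Reg f g₀ g₁ g₂) :
    ‖a2 f‖ ^ 2 + 27 / 4 * ‖a3 f - a2 f ^ 2‖ ^ 2 + Real.circleAverage (curv g₁ g₂) 0 1 ≤ 1 ∧
    ∃ h : ℂ → ℂ, DifferentiableOn ℂ h (ball 0 1) ∧ h 0 = 1 ∧
      (∀ z ∈ ball (0 : ℂ) 1, deriv f z * h z ^ 2 = 1) ∧
      ∀ z ∈ ball (0 : ℂ) 1, ‖h z - (1 - a2 f * z)‖ ^ 2 ≤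
        (1 - ‖a2 f‖ ^ 2 - Real.circleAverage (curv g₁ g₂) 0 1) *
          (‖z‖ ^ 4 / (3 * (1 - ‖z‖ ^ 2))) := by
  have hne : ∀ z ∈ ball (0 : ℂ) 1, deriv f z ≠ 0 := by
    intro z hz
    rw [← H.e1 hz]
    exact H.ne z (ball_subset_closedBall hz)
  obtain ⟨h, hd, h0, hq, hh⟩ := exists_h hf hne h1
  obtain ⟨hd0, ht2⟩ := tc_two hf hne h1 hd h0 hh
  have hav : Real.circleAverage (Wg g₁ g₂) 0 1 = Real.circleAverage (curv g₁ g₂) 0 1 :=
    average_congr fun z hz => Wg_sphere hz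
  have hmean : ∀ N : ℕ, ∑ n ∈ Finset.Ico 2 N, (2 * (n : ℝ) - 1) * ‖tc h n‖ ^ 2 ≤
      1 - ‖a2 f‖ ^ 2 - Real.circleAverage (curv g₁ g₂) 0 1 := by
    intro N
    have := mean_bdry hd (Wg_cont H) (Wg_ball H hq hh) N
    rw [hav, h0, hd0, norm_one, norm_neg] at this
    linarith
  refine ⟨?_, h, hd, h0, hq, ?_⟩
  · have h3 := hmean 3
    have h4 : Finset.Ico 2 3 = {2} := by decide
    rw [h4, Finset.sum_singleton, ht2, norm_mul, mul_pow] at h3
    have h5 : ‖(-(3 / 2) : ℂ)‖ = 3 / 2 := by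
      rw [norm_neg]
      norm_num
    rw [h5] at h3
    push_cast at h3
    linarith
  · intro z hz
    have := stab hd hmean hz
    rw [h0, hd0] at this
    have e : h z - (1 - a2 f * z) = h z - (1 + -a2 f * z) := by ring
    rw [e]
    exact this

end Pool.Agent.CVR
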